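import Pool.Agent.T2H28.BF.Spec

/-! Lemmas on intermediate fields. -/

set_option autoImplicit false

namespace Pool.Agent.T2H28.BF

open NumberField Pool.Agent.W401.Cheb
open Pool.Agent.W353.NF (fixn act)

section
variable {K : Type} [Field K]

theorem sup_galois {ι : Type} (Θ : Finset ι) (M : ι → IntermediateField K (AlgebraicClosure K))
    (h1 : ∀ i, FiniteDimensional K (M i)) (h2 : ∀ i, IsGalois K (M i)) :
    ∃ N : IntermediateField K (AlgebraicClosure K), FiniteDimensional K N ∧ IsGalois K N ∧
      ∀ i ∈ Θ, M i ≤ N := by
  classical
  induction Θ using Finset.induction_on with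
  | empty => exact ⟨⊥, inferInstance, inferInstance, fun i hi => absurd hi (Finset.notMem_empty i)⟩
  | insert x s _ ih =>
    obtain ⟨N, hN1, hN2, hN3⟩ := ih
    have a1 := h1 x
    have a2 := h2 x
    refine ⟨M x ⊔ N, inferInstance, inferInstance, fun i hi => ?_⟩
    rcases Finset.mem_insert.1 hi with rfl | hi
    · exact le_sup_left
    · exact (hN3 i hi).trans le_sup_right

variable [NumberField K]

theorem fin_below (M : IntermediateField K (AlgebraicClosure K)) (hM : FiniteDimensional K M) :
    {F : IntermediateField K (AlgebraicClosure K) | F ≤ M}.Finite := by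
  have h1 : Finite (IntermediateField K M) :=
    Field.finite_intermediateField_of_exists_primitive_element K M (Field.exists_primitive_element K M)
  refine (Set.finite_range (fun L : IntermediateField K M => IntermediateField.lift L)).subset ?_
  intro F hF
  have hF' : F ≤ M := hF
  exact ⟨IntermediateField.restrict hF', IntermediateField.lift_restrict hF'⟩

theorem fixn_bot (g : GK K) : fixn K (⊥ : IntermediateField K (AlgebraicClosure K)) g = 1 := by
  have h1 : Nat.card ((⊥ : IntermediateField K (AlgebraicClosure K)) →ₐ[K] AlgebraicClosure K) = 1 := by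
    rw [Nat.card_eq_fintype_card, AlgHom.card K (⊥ : IntermediateField K (AlgebraicClosure K))
      (AlgebraicClosure K), IntermediateField.finrank_bot]
  have h2 : Subsingleton ((⊥ : IntermediateField K (AlgebraicClosure K)) →ₐ[K] AlgebraicClosure K) :=
    (Nat.card_eq_one_iff_unique.1 h1).1
  unfold fixn
  have e : Nat.card {i : (⊥ : IntermediateField K (AlgebraicClosure K)) →ₐ[K] AlgebraicClosure K //
      act K (⊥ : IntermediateField K (AlgebraicClosure K)) g i = i} =
      Nat.card ((⊥ : IntermediateField K (AlgebraicClosure K)) →ₐ[K] AlgebraicClosure K) :=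
    Nat.card_congr (Equiv.subtypeUnivEquiv fun i => Subsingleton.elim _ _)
  rw [e, h1]

end

end Pool.Agent.T2H28.BF
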