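import Pool.Agent.T2H28.BF.Fields

/-! All modular elliptic curves over the rational numbers and all heights, for one number field. -/

set_option autoImplicit false

namespace Pool.Agent.T2H28.BF

open Complex Filter Topology ComplexConjugate NumberField IsDedekindDomain Asymptotics
  Pool.Agent.W401.Cheb Pool.Agent.W540.BE Pool.Agent.W353.L1 Pool.Agent.W353.NF
open Pool.Agent.H341R2 (lam lam_tendsto sysK)
open Pool.Agent.TH322.BC.Edge (MinimalModels LSeries size HasOrder orders size_base)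
open Pool.Agent.X288.L2 (EC Cls hw hw_self kappa₂ pairOrbits pairRel)
open Pool.Agent.Y722.EP (IsModular rE abs_rE NotIsogenous)
open Pool.Agent.Y149.LN (uK norm_uK uK_re sumK bessel_D zre)
open Pool.Agent.W353.EF (perm)

theorem card_le {α : Type*} {s : Set α} {n : ℕ}
    (h : ∀ J : Finset α, (∀ i ∈ J, i ∈ s) → J.card ≤ n) : s.Finite ∧ s.ncard ≤ n := by
  have hf : s.Finite := by
    by_contra hinf
    obtain ⟨J, hJ, hc⟩ := Set.Infinite.exists_subset_card_eq hinf (n + 1)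
    have := h J fun i hi => hJ hi
    omega
  refine ⟨hf, ?_⟩
  rw [Set.ncard_eq_toFinset_card s hf]
  exact h _ fun i hi => (Set.Finite.mem_toFinset hf).1 hi

section
variable (F : Type) [Field F] [NumberField F] [Algebra ℚ F]

theorem orbits_le : pairOrbits ℚ F ≤ Module.finrank ℚ F := by
  classical
  have i₀ : F →ₐ[ℚ] AlgebraicClosure ℚ := IsAlgClosed.lift
  let φ : (F →ₐ[ℚ] AlgebraicClosure ℚ) → Quotient (pairRel ℚ F) := fun j =>
    Quotient.mk (pairRel ℚ F) (i₀, j)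
  have hφ : Function.Surjective φ := by
    intro q
    obtain ⟨⟨i, j⟩, rfl⟩ := Quotient.exists_rep q
    obtain ⟨σ, hσ⟩ := act_trans ℚ F i i₀
    refine ⟨perm ℚ F σ j, ?_⟩
    exact (Quotient.sound (s := pairRel ℚ F)
      (show (pairRel ℚ F).r (i, j) (i₀, perm ℚ F σ j) from ⟨σ, hσ, rfl⟩)).symm
  have h1 := Nat.card_le_card_of_surjective φ hφ
  have h2 : Nat.card (F →ₐ[ℚ] AlgebraicClosure ℚ) = Module.finrank ℚ F := by
    rw [Nat.card_eq_fintype_card]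
    exact AlgHom.card ℚ F (AlgebraicClosure ℚ)
  unfold pairOrbits
  omega

theorem one_le_orbits : 1 ≤ pairOrbits ℚ F := by
  have i₀ : F →ₐ[ℚ] AlgebraicClosure ℚ := IsAlgClosed.lift
  have hne : Nonempty (Quotient (pairRel ℚ F)) := ⟨Quotient.mk _ (i₀, i₀)⟩
  have hfin : Finite (Quotient (pairRel ℚ F)) := inferInstance
  exact Nat.card_pos

end

section
variable {F : Type} [Field F] [NumberField F] [Algebra ℚ F] {ι : Type} {a b : ι → ℤ}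
  {σ : HeightOneSpectrum (𝓞 ℚ) → GK ℚ} (hσ : ∀ v, IsFrob v (σ v))

include hσ in
/-- the second moment of the class function -/
theorem mean_sq (δ : ℝ) : Tendsto (fun ε : ℝ =>
    (EP (nm ℚ) ε fun v => ((fixn ℚ F (σ v) : ℝ) - δ) ^ 2) / lam ε) (𝓝[>] 0)
      (𝓝 ((pairOrbits ℚ F : ℝ) - 2 * δ + δ ^ 2)) := by
  have h := (has_fix_same hσ F δ 0).2
  have e1 : kappa₂ 0 = 1 := if_pos rfl
  rw [e1, one_mul] at h
  refine h.congr fun ε => ?_
  congr 2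
  funext v
  have e2 : cz 0 v = 1 := by
    unfold cz zz
    simp
  rw [e2]
  ring

include hσ in
/-- one sign -/
theorem cols_one (δ e : ℝ) (he : e = 1 ∨ e = -1) (S : Finset (ι × ℝ))
    (hΔ : ∀ x ∈ S, 4 * a x.1 ^ 3 + 27 * b x.1 ^ 2 ≠ 0)
    (hmod : ∀ x ∈ S, IsModular (a x.1) (b x.1))
    (hne : ∀ x ∈ S, ∀ y ∈ S, x.1 ≠ y.1 → NotIsogenous (a x.1) (b x.1) (a y.1) (b y.1))
    (x : ι × ℝ → ℝ → ℝ) (hx : ∀ y ∈ S, Tendsto (fun ε => (EP (nm ℚ) ε fun v =>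
      rE (a y.1) (b y.1) v * (((fixn ℚ F (σ v) : ℝ) - δ) * cz y.2 v)) / lam ε - x y ε)
      (𝓝[>] 0) (𝓝 0)) {η : ℝ} (hη : 0 < η) :
    ∀ᶠ ε : ℝ in 𝓝[>] 0, ∑ y ∈ S, (max (e * x y ε) 0) ^ 2 ≤
      ((pairOrbits ℚ F : ℝ) - 2 * δ + δ ^ 2) + η := by
  have hee : e ^ 2 = 1 := by rcases he with h | h <;> rw [h] <;> norm_num
  have hD : (Module.finrank ℚ ℚ : ℝ) = 1 := by rw [Module.finrank_self, Nat.cast_one]
  have h1 := bessel_D (normSys (F := ℚ)) lam_tendsto (EP_one ℚ) S (uK (K := ℚ) a b)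
    (fun v => e * ((fixn ℚ F (σ v) : ℝ) - δ)) (bu := 2) (bT := |e| * (Module.finrank ℚ F + |δ|)) (D := 1)
    one_pos (fun y v => norm_uK y v) (fun v => by
      rw [abs_mul]
      refine mul_le_mul_of_nonneg_left ?_ (abs_nonneg _)
      refine (abs_sub _ _).trans (add_le_add ?_ le_rfl)
      rw [Nat.abs_cast]
      exact_mod_cast fixn_le_deg F (σ v)) (fun B => by
      obtain ⟨C, hC⟩ := sumK (K := ℚ) S hΔ hmod hne B
      refine ⟨C, hC.mono fun ε h c hc => ?_⟩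
      have := h c hc
      rwa [hD] at this) (fun y ε => e * x y ε) (fun y hy => by
      have h2 := (hx y hy).const_mul e
      rw [mul_zero] at h2
      refine h2.congr fun ε => ?_
      have e1 : (fun v => e * ((fixn ℚ F (σ v) : ℝ) - δ) * (uK (K := ℚ) a b y v).re) =
          fun v => e * (rE (a y.1) (b y.1) v * (((fixn ℚ F (σ v) : ℝ) - δ) * cz y.2 v)) := by
        funext v
        rw [uK_re]
        have : zre y.2 v = cz y.2 v := rfl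
        rw [this]
        ring
      rw [e1, EP_const_mul]
      ring) (η := η / 2) (by positivity)
  have h2 := (mean_sq (F := F) hσ δ).eventually_lt_const
    (show (pairOrbits ℚ F : ℝ) - 2 * δ + δ ^ 2 < ((pairOrbits ℚ F : ℝ) - 2 * δ + δ ^ 2) + η / 2 by linarith)
  filter_upwards [h1, h2] with ε g1 g2
  refine g1.trans ?_
  have e2 : (fun v => (e * ((fixn ℚ F (σ v) : ℝ) - δ)) ^ 2) = fun v => ((fixn ℚ F (σ v) : ℝ) - δ) ^ 2 := by
    funext v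
    rw [mul_pow, hee, one_mul]
  rw [e2, one_mul]
  linarith

end

section
variable (F : Type) [Field F] [NumberField F] [Algebra ℚ F] (ι : Type) (a b : ι → ℤ)
    (hΔ : ∀ i, 4 * a i ^ 3 + 27 * b i ^ 2 ≠ 0) (hmod : ∀ i, IsModular (a i) (b i))
    (hne : ∀ i j, i ≠ j → NotIsogenous (a i) (b i) (a j) (b j))
    (V₀ : ι → HeightOneSpectrum (𝓞 ℚ) → WeierstrassCurve (𝓞 ℚ))
    (hV₀ : ∀ i, MinimalModels (EC ℚ (a i) (b i)) (V₀ i))
    (V : ι → HeightOneSpectrum (𝓞 F) → WeierstrassCurve (𝓞 F))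
    (hV : ∀ i, MinimalModels ((EC ℚ (a i) (b i)).map (algebraMap ℚ F)) (V i))

include hΔ hmod hne hV₀ hV in
/-- all sums -/
theorem cols_all (S : Finset (ι × ℝ)) (η : ℝ) (hη : 0 < η) : ∀ᶠ ε : ℝ in 𝓝[>] 0,
    ∑ x ∈ S, (max (size (V x.1) x.2 ε) 0) ^ 2 ≤ pairOrbits ℚ F + η ∧
    ∑ x ∈ S, (max (-size (V x.1) x.2 ε) 0) ^ 2 ≤ pairOrbits ℚ F + η ∧
    ∑ x ∈ S, (max (size (V x.1) x.2 ε - size (V₀ x.1) x.2 ε) 0) ^ 2 ≤ pairOrbits ℚ F - 1 + η ∧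
    ∑ x ∈ S, (max (size (V₀ x.1) x.2 ε - size (V x.1) x.2 ε) 0) ^ 2 ≤ pairOrbits ℚ F - 1 + η := by
  choose σ hσ using exists_isFrob (F := ℚ)
  have l0 := fun y (_ : y ∈ S) => link_own (hΔ y.1) hσ (hmod y.1) (hV y.1) y.2
  have l1 := fun y (_ : y ∈ S) => link_diff (hΔ y.1) hσ (hmod y.1) (hV y.1) (hV₀ y.1) y.2
  have hn : ∀ x ∈ S, ∀ y ∈ S, x.1 ≠ y.1 → NotIsogenous (a x.1) (b x.1) (a y.1) (b y.1) :=
    fun x _ y _ h => hne _ _ h
  have k1 := cols_one (F := F) hσ 0 1 (Or.inl rfl) S (fun x _ => hΔ x.1) (fun x _ => hmod x.1) hn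
    (fun y ε => size (V y.1) y.2 ε) l0 hη
  have k2 := cols_one (F := F) hσ 0 (-1) (Or.inr rfl) S (fun x _ => hΔ x.1) (fun x _ => hmod x.1) hn
    (fun y ε => size (V y.1) y.2 ε) l0 hη
  have k3 := cols_one (F := F) hσ 1 1 (Or.inl rfl) S (fun x _ => hΔ x.1) (fun x _ => hmod x.1) hn
    (fun y ε => size (V y.1) y.2 ε - size (V₀ y.1) y.2 ε) l1 hη
  have k4 := cols_one (F := F) hσ 1 (-1) (Or.inr rfl) S (fun x _ => hΔ x.1) (fun x _ => hmod x.1) hn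
    (fun y ε => size (V y.1) y.2 ε - size (V₀ y.1) y.2 ε) l1 hη
  filter_upwards [k1, k2, k3, k4] with ε g1 g2 g3 g4
  refine ⟨?_, ?_, ?_, ?_⟩
  · refine le_trans (le_of_eq (Finset.sum_congr rfl fun y _ => ?_)) (g1.trans (le_of_eq (by ring)))
    rw [one_mul]
  · refine le_trans (le_of_eq (Finset.sum_congr rfl fun y _ => ?_)) (g2.trans (le_of_eq (by ring)))
    rw [neg_one_mul]
  · refine le_trans (le_of_eq (Finset.sum_congr rfl fun y _ => ?_)) (g3.trans (le_of_eq (by ring)))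
    rw [one_mul]
  · refine le_trans (le_of_eq (Finset.sum_congr rfl fun y _ => ?_)) (g4.trans (le_of_eq (by ring)))
    rw [neg_one_mul, neg_sub]

include hΔ hmod hne hV₀ hV in
/-- the orders -/
theorem cols_orders (T : Set (ι × ℝ)) (m₀ m : ι × ℝ → ℤ)
    (hm₀ : ∀ x ∈ T, HasOrder (V₀ x.1) x.2 (m₀ x)) (hm : ∀ x ∈ T, HasOrder (V x.1) x.2 (m x))
    (S : Finset (ι × ℝ)) (hS : ∀ x ∈ S, x ∈ T) :
    ∑ x ∈ S, (max (m₀ x - m x) 0) ^ 2 ≤ (pairOrbits ℚ F : ℤ) - 1 ∧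
    ∑ x ∈ S, (max (m x - m₀ x) 0) ^ 2 ≤ (pairOrbits ℚ F : ℤ) - 1 := by
  choose σ hσ using exists_isFrob (F := ℚ)
  have o1 : ∀ x ∈ S, Tendsto (size (V x.1) x.2) (𝓝[>] 0) (𝓝 (-(m x : ℝ))) := fun x hx =>
    orders (szh_own (hΔ x.1) hσ (hV x.1) x.2).1 (hm x (hS x hx))
  have o0 : ∀ x ∈ S, Tendsto (size (V₀ x.1) x.2) (𝓝[>] 0) (𝓝 (-(m₀ x : ℝ))) := fun x hx =>
    orders (szh_base (hΔ x.1) hσ (hV₀ x.1) x.2).1 (hm₀ x (hS x hx))
  have t1 : Tendsto (fun ε => ∑ x ∈ S, (max (size (V x.1) x.2 ε - size (V₀ x.1) x.2 ε) 0) ^ 2) (𝓝[>] 0)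
      (𝓝 (∑ x ∈ S, (max (-(m x : ℝ) - -(m₀ x : ℝ)) 0) ^ 2)) :=
    tendsto_finsetSum _ fun x hx => (((o1 x hx).sub (o0 x hx)).max tendsto_const_nhds).pow 2
  have t2 : Tendsto (fun ε => ∑ x ∈ S, (max (size (V₀ x.1) x.2 ε - size (V x.1) x.2 ε) 0) ^ 2) (𝓝[>] 0)
      (𝓝 (∑ x ∈ S, (max (-(m₀ x : ℝ) - -(m x : ℝ)) 0) ^ 2)) :=
    tendsto_finsetSum _ fun x hx => (((o0 x hx).sub (o1 x hx)).max tendsto_const_nhds).pow 2
  have key := fun η hη => cols_all F ι a b hΔ hmod hne V₀ hV₀ V hV S η hη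
  have b1 : ∑ x ∈ S, (max (-(m x : ℝ) - -(m₀ x : ℝ)) 0) ^ 2 ≤ (pairOrbits ℚ F : ℝ) - 1 :=
    le_of_forall_pos_le_add fun η hη => le_of_tendsto t1 ((key η hη).mono fun ε h => h.2.2.1)
  have b2 : ∑ x ∈ S, (max (-(m₀ x : ℝ) - -(m x : ℝ)) 0) ^ 2 ≤ (pairOrbits ℚ F : ℝ) - 1 :=
    le_of_forall_pos_le_add fun η hη => le_of_tendsto t2 ((key η hη).mono fun ε h => h.2.2.2)
  constructor
  · have e1 : ∑ x ∈ S, (max (-(m x : ℝ) - -(m₀ x : ℝ)) 0) ^ 2 =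
        ((∑ x ∈ S, (max (m₀ x - m x) 0) ^ 2 : ℤ) : ℝ) := by
      push_cast
      refine Finset.sum_congr rfl fun x _ => ?_
      congr 2
      ring
    rw [e1] at b1
    exact_mod_cast b1
  · have e1 : ∑ x ∈ S, (max (-(m₀ x : ℝ) - -(m x : ℝ)) 0) ^ 2 =
        ((∑ x ∈ S, (max (m x - m₀ x) 0) ^ 2 : ℤ) : ℝ) := by
      push_cast
      refine Finset.sum_congr rfl fun x _ => ?_
      congr 2
      ring
    rw [e1] at b2
    exact_mod_cast b2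

end

/-- counting from a bound for sums of squares -/
theorem count_of_sums {ι : Type} {r : ℕ} (hr : 1 ≤ r) {T : Set (ι × ℝ)} {f : ι × ℝ → ℤ}
    (h : ∀ S : Finset (ι × ℝ), (∀ x ∈ S, x ∈ T) → ∑ x ∈ S, (max (f x) 0) ^ 2 ≤ (r : ℤ) - 1) :
    {x | x ∈ T ∧ 0 < f x}.Finite ∧ {x | x ∈ T ∧ 0 < f x}.ncard ≤ r - 1 ∧
    {i | ∃ τ, (i, τ) ∈ T ∧ 0 < f (i, τ)}.Finite ∧
    {i | ∃ τ, (i, τ) ∈ T ∧ 0 < f (i, τ)}.ncard ≤ r - 1 := by
  classical
  have key : ∀ S : Finset (ι × ℝ), (∀ x ∈ S, x ∈ T ∧ 0 < f x) → S.card ≤ r - 1 := by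
    intro S hS
    have h1 := h S fun x hx => (hS x hx).1
    have h2 : ∑ x ∈ S, (1 : ℤ) ≤ ∑ x ∈ S, (max (f x) 0) ^ 2 := by
      refine Finset.sum_le_sum fun x hx => ?_
      have h3 := (hS x hx).2
      rw [max_eq_left h3.le]
      have : 1 ≤ f x := h3
      nlinarith
    rw [Finset.sum_const, nsmul_eq_mul, mul_one] at h2
    omega
  have h1 := card_le (s := {x | x ∈ T ∧ 0 < f x}) (n := r - 1) fun J hJ => key J hJ
  have h2 := card_le (s := {i | ∃ τ, (i, τ) ∈ T ∧ 0 < f (i, τ)}) (n := r - 1) fun J hJ => by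
    have h3 : ∀ i : ι, ∃ τ : ℝ, i ∈ J → (i, τ) ∈ T ∧ 0 < f (i, τ) := by
      intro i
      by_cases hi : i ∈ J
      · obtain ⟨τ, hτ⟩ := hJ i hi
        exact ⟨τ, fun _ => hτ⟩
      · exact ⟨0, fun h => absurd h hi⟩
    choose τ hτ using h3
    have h4 := key (J.image fun i => (i, τ i)) (fun x hx => by
      obtain ⟨i, hi, rfl⟩ := Finset.mem_image.1 hx
      exact hτ i hi)
    rwa [Finset.card_image_of_injective _ fun i j hij => congrArg Prod.fst hij] at h4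
  exact ⟨h1.1, h1.2, h2.1, h2.2⟩

end Pool.Agent.T2H28.BF
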