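import Pool.Agent.X288.L2.Base
import Pool.Agent.Y149.LN.Fam

/-! Means over the primes of the normalised traces of a modular elliptic curve, and Bessel's inequality. -/

set_option autoImplicit false

namespace Pool.Agent.T2H28.BF

open Complex Filter Topology ComplexConjugate NumberField IsDedekindDomain Asymptotics
  Pool.Agent.W401.Cheb Pool.Agent.W540.BE Pool.Agent.W353.L1 Pool.Agent.W353.NF
open Pool.Agent.W353.TP (HX sysH LL LL_tendsto E_H EH_eq card_hom_le bdd_isLittleO lam0_sub)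
open Pool.Agent.H341R2 (lam lam_tendsto sysK lam_bounded)
open Pool.Agent.H921R2.TatePole (kerPrime C0)
open Pool.Agent.W353.AB (syE)
open Pool.Agent.X288.L2 (PP QQ EC TT_newform abs_TT_le)
open Pool.Agent.Y722.EP (IsModular IsNewformOf rE abs_rE rE_kerPrime finite_dvd NotIsogenous)

/-- the sizes and the normalised traces -/
theorem link {a b : ℤ} (hab : 4 * a ^ 3 + 27 * b ^ 2 ≠ 0) (hmod : IsModular a b)
    {Ψ : HeightOneSpectrum (𝓞 ℚ) → ℝ} {B : ℝ} (hΨ : ∀ v, |Ψ v| ≤ B) {X : ℝ → ℝ}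
    (h : SzH (TT (syE (PP ℚ a) (QQ ℚ b))) Ψ X) :
    Tendsto (fun ε => (EP (nm ℚ) ε fun v => rE a b v * Ψ v) / lam ε - X ε) (𝓝[>] 0) (𝓝 0) := by
  classical
  obtain ⟨N, hN, f, hf⟩ := hmod
  have hB0 : 0 ≤ B := (abs_nonneg _).trans (hΨ (vx ((sysH ℚ).nonempty.some)))
  set T : HX ℚ → ℝ := TT (syE (PP ℚ a) (QQ ℚ b)) with hT
  have hTb : ∀ x, |T x| ≤ 2 := abs_TT_le a b
  -- the finitely many exceptional primes
  set S : Finset Nat.Primes := (finite_dvd
    (mul_ne_zero (by norm_num : (6 : ℤ) ≠ 0) hab)).toFinset with hS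
  have hgood : ∀ x : HX ℚ, x.1 ∉ S → T x = rE a b (vx x) := by
    intro x hx
    have hp : ¬ ((x.1 : ℕ) : ℤ) ∣ 6 * (4 * a ^ 3 + 27 * b ^ 2) := by
      intro h3
      apply hx
      rw [hS, Set.Finite.mem_toFinset]
      exact h3
    have hp2 : ¬ ((x.1 : ℕ) : ℤ) ∣ 2 * (4 * a ^ 3 + 27 * b ^ 2) := fun h => hp (h.trans ⟨3, by ring⟩)
    have h1 := TT_newform (K := ℚ) hf x hp
    have h2 := rE_kerPrime (K := ℚ) hf x.1 hp2 x.2
    rw [hT, h1]
    exact h2.symm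
  -- the difference of the two sums over the homomorphisms
  have hbd : ∀ ε : ℝ, 0 < ε → |(sysH ℚ).E ε (fun x => T x * Ψ (vx x)) -
      EP (nm ℚ) ε fun v => rE a b v * Ψ v| ≤ 2 * B * Module.finrank ℚ ℚ * C0 + S.card * (4 * B) := by
    intro ε hε
    have hgb : ∀ v : HeightOneSpectrum (𝓞 ℚ), |rE a b v * Ψ v| ≤ 2 * B := fun v => by
      rw [abs_mul]
      exact mul_le_mul (abs_rE a b v) (hΨ v) (abs_nonneg _) (by norm_num)
    have h1 := E_H (K := ℚ) hgb hε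
    set F : HX ℚ → ℝ := fun x => T x * Ψ (vx x) with hF
    set G : HX ℚ → ℝ := fun x => rE a b (vx x) * Ψ (vx x) with hGd
    set D : HX ℚ → ℝ := fun x => (T x - rE a b (vx x)) * Ψ (vx x) with hDd
    have h2 : |(sysH ℚ).E ε F - (sysH ℚ).E ε G| ≤ S.card * (4 * B) := by
      have hd : ∀ x : HX ℚ, |D x| ≤ 4 * B := by
        intro x
        rw [hDd]
        simp only
        rw [abs_mul]
        refine mul_le_mul ?_ (hΨ _) (abs_nonneg _) (by norm_num)
        have := abs_sub (T x) (rE a b (vx x))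
        have h3 := hTb x
        have h4 := abs_rE a b (vx x)
        linarith
      have hFG : F = fun x => D x + G x := by
        funext x
        rw [hF, hDd, hGd]
        ring
      have e1 : (sysH ℚ).E ε F = (sysH ℚ).E ε D + (sysH ℚ).E ε G := by
        rw [hFG]
        exact (sysH ℚ).E_add hε (φ := D) (ψ := G) (B := 4 * B) (B' := 2 * B) hd (fun x => hgb _)
      have e2 : (sysH ℚ).E ε D = Pool.Agent.H341R2.E ε fun p => ∑ u : 𝓞 ℚ →+* ZMod (p : ℕ), D ⟨p, u⟩ :=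
        EH_eq hε hd
      rw [e1, add_sub_cancel_right, e2]
      have hz : ∀ p : Nat.Primes, p ∉ S → ∑ u : 𝓞 ℚ →+* ZMod (p : ℕ), D ⟨p, u⟩ = 0 := by
        intro p hp
        refine Finset.sum_eq_zero fun u _ => ?_
        rw [hDd]
        simp only
        rw [hgood ⟨p, u⟩ hp, sub_self, zero_mul]
      have e3 : (Pool.Agent.H341R2.E ε fun p => ∑ u : 𝓞 ℚ →+* ZMod (p : ℕ), D ⟨p, u⟩) =
          ∑ p ∈ S, (∑ u : 𝓞 ℚ →+* ZMod (p : ℕ), D ⟨p, u⟩) * ((p : ℕ) : ℝ) ^ (-(1 + ε)) :=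
        tsum_eq_sum (s := S) fun p hp => by
          change (∑ u : 𝓞 ℚ →+* ZMod (p : ℕ), D ⟨p, u⟩) * _ = 0
          rw [hz p hp, zero_mul]
      rw [e3]
      refine (Finset.abs_sum_le_sum_abs _ _).trans ((Finset.sum_le_card_nsmul _ _ (4 * B)
        fun p _ => ?_).trans (le_of_eq (nsmul_eq_mul _ _)))
      have hw0 : 0 ≤ ((p : ℕ) : ℝ) ^ (-(1 + ε)) := by positivity
      have hw1 : ((p : ℕ) : ℝ) ^ (-(1 + ε)) ≤ 1 :=
        Real.rpow_le_one_of_one_le_of_nonpos (by exact_mod_cast p.2.one_le) (by linarith)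
      have hub : |∑ u : 𝓞 ℚ →+* ZMod (p : ℕ), D ⟨p, u⟩| ≤ 4 * B := by
        refine (Finset.abs_sum_le_sum_abs _ _).trans ((Finset.sum_le_card_nsmul _ _ (4 * B)
          fun u _ => hd ⟨p, u⟩).trans ?_)
        rw [nsmul_eq_mul, Finset.card_univ]
        have h5 := card_hom_le (K := ℚ) p
        rw [Module.finrank_self] at h5
        have h6 : ((Fintype.card (𝓞 ℚ →+* ZMod (p : ℕ)) : ℕ) : ℝ) ≤ 1 := by exact_mod_cast h5
        nlinarith
      rw [abs_mul, abs_of_nonneg hw0]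
      calc _ ≤ (4 * B) * 1 := mul_le_mul hub hw1 hw0 (by positivity)
        _ = 4 * B := mul_one _
    have h3 : EP (nm ℚ) ε (fun v => rE a b v * Ψ v) = (sysK ℚ).E ε fun v => rE a b v * Ψ v := rfl
    rw [h3]
    have h4 : |(sysK ℚ).E ε (fun v => rE a b v * Ψ v) - (sysH ℚ).E ε G| ≤
        2 * B * Module.finrank ℚ ℚ * C0 := h1
    have h5 : |(sysH ℚ).E ε F - (sysK ℚ).E ε (fun v => rE a b v * Ψ v)| ≤
        |(sysH ℚ).E ε F - (sysH ℚ).E ε G| +
        |(sysH ℚ).E ε G - (sysK ℚ).E ε (fun v => rE a b v * Ψ v)| := abs_sub_le _ _ _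
    rw [abs_sub_comm] at h4
    refine h5.trans ?_
    rw [add_comm]
    exact add_le_add h4 h2
  have u2 : (fun ε => (sysH ℚ).E ε (fun x => T x * Ψ (vx x)) -
      EP (nm ℚ) ε fun v => rE a b v * Ψ v) =o[𝓝[>] 0] LL :=
    bdd_isLittleO ⟨_, by filter_upwards [self_mem_nhdsWithin] with ε hε using hbd ε hε⟩
  -- the size is bounded
  have hX : ∀ᶠ ε : ℝ in 𝓝[>] 0, |X ε| ≤ 2 * (2 * B) + 1 := by
    refine size_le (by norm_num) hTb hΨ h (A := 2 * B) (fun η hη => ?_) one_pos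
    filter_upwards [(EP_one ℚ).eventually_lt_const (by norm_num : (1 : ℝ) < 2),
      lam_tendsto.eventually_gt_atTop 0, self_mem_nhdsWithin] with ε h1 h2 h3
    have hε : (0 : ℝ) < ε := h3
    rw [div_lt_iff₀ h2] at h1
    rw [div_le_iff₀ h2]
    have h4 := EP_le normSys hε (φ := fun v : HeightOneSpectrum (𝓞 ℚ) => |Ψ v|) (B := B)
      (fun v => by rw [abs_abs]; exact hΨ v) (b := B) hΨ
    have h5 : B * (EP (nm ℚ) ε fun _ => 1) ≤ B * (2 * lam ε) := mul_le_mul_of_nonneg_left h1.le hB0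
    have h6 : 0 ≤ η * lam ε := by positivity
    linarith
  have hX1 : X =O[𝓝[>] 0] (fun _ => (1 : ℝ)) := by
    refine IsBigO.of_bound (2 * (2 * B) + 1) ?_
    filter_upwards [hX] with ε hε
    simpa using hε
  have u3 : (fun ε => X ε * (lam ε - LL ε)) =o[𝓝[>] 0] LL := by
    have := hX1.mul_isLittleO lam0_sub
    simpa using this
  have h4 : (fun ε => (EP (nm ℚ) ε fun v => rE a b v * Ψ v) - X ε * lam ε) =o[𝓝[>] 0] LL := by
    have h0 : (fun ε => X ε * LL ε - (sysH ℚ).E ε (fun x => T x * Ψ (vx x))) =o[𝓝[>] 0] LL := h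
    have h5 := (h0.add u2).add u3
    have h6 := h5.neg_left
    refine h6.congr_left fun ε => ?_
    rw [hT]
    ring
  have hequiv : lam ~[𝓝[>] 0] LL := lam0_sub
  have h7 := h4.trans_isBigO hequiv.isBigO_symm
  have h8 := h7.tendsto_div_nhds_zero
  refine h8.congr' ?_
  filter_upwards [lam_tendsto.eventually_gt_atTop 0] with ε h1
  rw [sub_div, mul_div_assoc, div_self h1.ne', mul_one]

/-- the second moment -/
theorem sec1 {a b : ℤ} (hab : 4 * a ^ 3 + 27 * b ^ 2 ≠ 0) (hmod : IsModular a b) :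
    ∃ C : ℝ, ∀ᶠ ε : ℝ in 𝓝[>] 0,
      (EP (nm ℚ) ε fun v : HeightOneSpectrum (𝓞 ℚ) => rE a b v ^ 2) ≤ lam ε + C := by
  classical
  obtain ⟨C, hC⟩ := Pool.Agent.Y149.LN.sumK (K := ℚ) (ι := Unit) (a := fun _ => a) (b := fun _ => b)
    {((), 0)} (fun _ _ => hab) (fun _ _ => hmod) (fun x _ y _ hxy => absurd (Subsingleton.elim _ _) hxy) 1
  refine ⟨C, ?_⟩
  filter_upwards [hC] with ε h1
  have h2 := h1 (fun _ => 1) (fun _ _ => ⟨zero_le_one, le_rfl⟩)
  have e1 : (fun v : HeightOneSpectrum (𝓞 ℚ) => ‖∑ x ∈ ({((), 0)} : Finset (Unit × ℝ)), (((1 : ℝ) : ℂ)) *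
      Pool.Agent.Y149.LN.uK (fun _ => a) (fun _ => b) x v‖ ^ 2) = fun v => rE a b v ^ 2 := by
    funext v
    rw [Finset.sum_singleton]
    unfold Pool.Agent.Y149.LN.uK
    rw [Complex.ofReal_one, one_mul, norm_mul, norm_zz, mul_one, Complex.norm_real, Real.norm_eq_abs,
      sq_abs]
  have e2 : (EP (nm ℚ) ε fun v => ‖∑ x ∈ ({((), 0)} : Finset (Unit × ℝ)), (((fun _ => 1) x : ℝ) : ℂ) *
      Pool.Agent.Y149.LN.uK (fun _ => a) (fun _ => b) x v‖ ^ 2) =
      EP (nm ℚ) ε fun v : HeightOneSpectrum (𝓞 ℚ) => rE a b v ^ 2 := congrArg (EP (nm ℚ) ε) e1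
  rw [e2] at h2
  simpa using h2

/-- limits along ultrafilters -/
theorem ulim (U : Ultrafilter ℝ) {f : ℝ → ℝ} {C : ℝ} (h : ∀ᶠ ε in (U : Filter ℝ), |f ε| ≤ C) :
    ∃ y, Tendsto f (U : Filter ℝ) (𝓝 y) := by
  have h1 : (U.map f : Filter ℝ) ≤ 𝓟 (Set.Icc (-C) C) := by
    rw [Ultrafilter.coe_map, Filter.le_principal_iff, Filter.mem_map]
    filter_upwards [h] with ε hε using abs_le.1 hε
  obtain ⟨y, _, hy⟩ := (isCompact_Icc (a := -C) (b := C)).ultrafilter_le_nhds (U.map f) h1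
  exact ⟨y, hy⟩

/-- **Bessel's inequality**, for one curve and a family of functions. -/
theorem rows {κ : Type*} [Fintype κ] [DecidableEq κ] {T : HeightOneSpectrum (𝓞 ℚ) → ℝ} {bT : ℝ}
    (hT : ∀ v, |T v| ≤ bT)
    (hsec : ∃ C : ℝ, ∀ᶠ ε : ℝ in 𝓝[>] 0, (EP (nm ℚ) ε fun v => T v ^ 2) ≤ lam ε + C)
    (w : κ → HeightOneSpectrum (𝓞 ℚ) → ℝ) (g : κ → ℝ) (hg : ∀ k, 0 < g k)
    (hG : ∀ k l, Has (fun v => w k v * w l v) (if k = l then g k else 0))
    (hw : ∀ k, ∃ B : ℝ, ∀ v, |w k v| ≤ B)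
    (x : κ → ℝ → ℝ) (hx : ∀ k, Tendsto (fun ε =>
      (EP (nm ℚ) ε fun v => T v * w k v) / lam ε - x k ε) (𝓝[>] 0) (𝓝 0))
    {η : ℝ} (hη : 0 < η) : ∀ᶠ ε : ℝ in 𝓝[>] 0, ∑ k, x k ε ^ 2 / g k ≤ 1 + η := by
  classical
  by_contra hcon
  rw [Filter.not_eventually] at hcon
  set l : Filter ℝ := 𝓝[>] 0 ⊓ 𝓟 {ε | ¬ ∑ k, x k ε ^ 2 / g k ≤ 1 + η} with hl
  have hne : l.NeBot := Filter.frequently_iff_neBot.1 hcon
  set U := Ultrafilter.of l with hUd
  have hUl : (U : Filter ℝ) ≤ l := Ultrafilter.of_le l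
  have hU : (U : Filter ℝ) ≤ 𝓝[>] 0 := hUl.trans inf_le_left
  have hU2 : ∀ᶠ ε in (U : Filter ℝ), ¬ ∑ k, x k ε ^ 2 / g k ≤ 1 + η := by
    have h1 : (U : Filter ℝ) ≤ 𝓟 {ε | ¬ ∑ k, x k ε ^ 2 / g k ≤ 1 + η} := hUl.trans inf_le_right
    exact h1 (mem_principal_self _)
  choose B hB using hw
  have hbT0 : 0 ≤ bT := (abs_nonneg _).trans (hT (vx ((sysH ℚ).nonempty.some)))
  have hTw : ∀ k v, |T v * w k v| ≤ bT * B k := fun k v => by
    rw [abs_mul]
    exact mul_le_mul (hT v) (hB k v) (abs_nonneg _) hbT0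
  -- the limits
  have hy : ∀ k, ∃ y : ℝ, Tendsto (fun ε => (EP (nm ℚ) ε fun v => T v * w k v) / lam ε)
      (U : Filter ℝ) (𝓝 y) := by
    intro k
    refine ulim U (C := (bT * B k) * 2) ?_
    have h1 : ∀ᶠ ε : ℝ in 𝓝[>] 0, |(EP (nm ℚ) ε fun v => T v * w k v) / lam ε| ≤ (bT * B k) * 2 := by
      filter_upwards [(EP_one ℚ).eventually_lt_const (by norm_num : (1 : ℝ) < 2),
        lam_tendsto.eventually_gt_atTop 0, self_mem_nhdsWithin] with ε h1 h2 h3
      have hε : (0 : ℝ) < ε := h3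
      rw [div_lt_iff₀ h2] at h1
      rw [abs_div, abs_of_pos h2, div_le_iff₀ h2]
      have h4 := Pool.Agent.Y149.CR.abs_EP_le (normSys (F := ℚ)) hε (hTw k)
      have h5 : 0 ≤ bT * B k := (abs_nonneg _).trans (hTw k (vx ((sysH ℚ).nonempty.some)))
      have h6 := mul_le_mul_of_nonneg_left h1.le h5
      linarith
    exact hU h1
  choose y hy using hy
  have hxy : ∀ k, Tendsto (x k) (U : Filter ℝ) (𝓝 (y k)) := by
    intro k
    have h1 := (hy k).sub ((hx k).mono_left hU)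
    rw [sub_zero] at h1
    exact h1.congr fun ε => by ring
  set c : κ → ℝ := fun k => y k / g k with hc
  set Z : ℝ := ∑ k, y k ^ 2 / g k with hZ
  set R : HeightOneSpectrum (𝓞 ℚ) → ℝ := fun v => ∑ k, c k * w k v with hR
  have hR2 : Has (fun v => R v ^ 2) Z := by
    have h1 := Pool.Agent.X288.L2.has_sum (K := ℚ) Finset.univ fun k _ =>
      Pool.Agent.X288.L2.has_sum (K := ℚ) Finset.univ fun l _ => (hG k l).const_mul (c k * c l)
    refine h1.congr (fun v => ?_) ?_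
    · rw [hR]
      simp only
      rw [sq, Finset.sum_mul_sum]
      refine Finset.sum_congr rfl fun k _ => Finset.sum_congr rfl fun l _ => ?_
      ring
    · rw [hZ]
      refine Finset.sum_congr rfl fun k _ => ?_
      rw [Finset.sum_eq_single k]
      · rw [if_pos rfl, hc]
        simp only
        have := (hg k).ne'
        field_simp
      · intro l _ hlk
        rw [if_neg (Ne.symm hlk), mul_zero]
      · intro h
        exact absurd (Finset.mem_univ k) h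
  have hTR : Tendsto (fun ε => (EP (nm ℚ) ε fun v => T v * R v) / lam ε) (U : Filter ℝ) (𝓝 Z) := by
    have h1 : Tendsto (fun ε => ∑ k, c k * ((EP (nm ℚ) ε fun v => T v * w k v) / lam ε))
        (U : Filter ℝ) (𝓝 (∑ k, c k * y k)) := tendsto_finsetSum _ fun k _ => (hy k).const_mul (c k)
    have e1 : ∑ k, c k * y k = Z := by
      rw [hZ]
      refine Finset.sum_congr rfl fun k _ => ?_
      rw [hc]
      ring
    rw [e1] at h1
    refine h1.congr' ?_
    have h2 : ∀ᶠ ε : ℝ in 𝓝[>] 0, ∑ k, c k * ((EP (nm ℚ) ε fun v => T v * w k v) / lam ε) =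
        (EP (nm ℚ) ε fun v => T v * R v) / lam ε := by
      filter_upwards [self_mem_nhdsWithin] with ε h3
      have hε : (0 : ℝ) < ε := h3
      have e2 : (fun v => T v * R v) = fun v => ∑ k, c k * (T v * w k v) := by
        funext v
        rw [hR]
        simp only
        rw [Finset.mul_sum]
        exact Finset.sum_congr rfl fun k _ => by ring
      rw [e2, EP_sum (normSys (F := ℚ)) hε Finset.univ (fun k v => c k * (T v * w k v))
        (fun k => |c k| * (bT * B k)) (fun k _ v => by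
          rw [abs_mul]
          exact mul_le_mul_of_nonneg_left (hTw k v) (abs_nonneg _)), Finset.sum_div]
      refine Finset.sum_congr rfl fun k _ => ?_
      rw [EP_const_mul, mul_div_assoc]
    exact hU h2
  obtain ⟨C, hC⟩ := hsec
  have hT2 : ∀ v, |T v ^ 2| ≤ bT ^ 2 := fun v => by
    rw [abs_pow]
    exact pow_le_pow_left₀ (abs_nonneg _) (hT v) 2
  obtain ⟨BR, hBR⟩ := hR2.1
  have hRb : ∀ v, |R v| ≤ ∑ k, |c k| * B k := fun v => by
    rw [hR]
    refine (Finset.abs_sum_le_sum_abs _ _).trans (Finset.sum_le_sum fun k _ => ?_)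
    rw [abs_mul]
    exact mul_le_mul_of_nonneg_left (hB k v) (abs_nonneg _)
  have hle : ∀ᶠ ε : ℝ in 𝓝[>] 0, 2 * ((EP (nm ℚ) ε fun v => T v * R v) / lam ε) ≤
      (1 + C / lam ε) + (EP (nm ℚ) ε fun v => R v ^ 2) / lam ε := by
    filter_upwards [hC, lam_tendsto.eventually_gt_atTop 0, self_mem_nhdsWithin] with ε h1 h2 h3
    have hε : (0 : ℝ) < ε := h3
    have h4 : ∀ v, |2 * (T v * R v)| ≤ 2 * (bT * ∑ k, |c k| * B k) := fun v => by
      rw [abs_mul, abs_two, abs_mul]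
      exact mul_le_mul_of_nonneg_left (mul_le_mul (hT v) (hRb v) (abs_nonneg _) hbT0) (by norm_num)
    have h5 := Pool.Agent.Y149.CR.EP_mono' (normSys (F := ℚ)) hε h4
      (fun v => (abs_add_le _ _).trans (add_le_add (hT2 v) (hBR v)))
      (fun v => by nlinarith [sq_nonneg (T v - R v)] : ∀ v, 2 * (T v * R v) ≤ T v ^ 2 + R v ^ 2)
    rw [EP_const_mul, EP_add (normSys (F := ℚ)) hε hT2 hBR] at h5
    have e1 : (1 + C / lam ε) + (EP (nm ℚ) ε fun v => R v ^ 2) / lam ε =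
        ((lam ε + C) + EP (nm ℚ) ε fun v => R v ^ 2) / lam ε := by
      field_simp
    rw [e1, ← mul_div_assoc, div_le_div_iff_of_pos_right h2]
    linarith
  have hlim1 : Tendsto (fun ε => 2 * ((EP (nm ℚ) ε fun v => T v * R v) / lam ε)) (U : Filter ℝ)
      (𝓝 (2 * Z)) := hTR.const_mul 2
  have hlim2 : Tendsto (fun ε => (1 + C / lam ε) + (EP (nm ℚ) ε fun v => R v ^ 2) / lam ε)
      (𝓝[>] 0) (𝓝 ((1 + 0) + Z)) :=
    (tendsto_const_nhds.add (tendsto_const_nhds.div_atTop lam_tendsto)).add hR2.2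
  have h1 := le_of_tendsto_of_tendsto hlim1 (hlim2.mono_left hU) (hU hle)
  have hlim3 : Tendsto (fun ε => ∑ k, x k ε ^ 2 / g k) (U : Filter ℝ) (𝓝 Z) :=
    tendsto_finsetSum _ fun k _ => ((hxy k).pow 2).div_const _
  have h2 : 1 + η ≤ Z := ge_of_tendsto hlim3 (hU2.mono fun ε hε => (not_le.1 hε).le)
  linarith

end Pool.Agent.T2H28.BF
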