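import Pool.Agent.T2H28.BF.Core

/-! Number fields: the mean values of products of the numbers of fixed embeddings, and the sizes. -/

set_option autoImplicit false

namespace Pool.Agent.T2H28.BF

open Complex Filter Topology ComplexConjugate NumberField IsDedekindDomain Asymptotics
  Pool.Agent.W401.Cheb Pool.Agent.W540.BE Pool.Agent.W353.L1 Pool.Agent.W353.NF
open Pool.Agent.W353.TP (HX sysH LL LL_tendsto)
open Pool.Agent.H341R2 (lam lam_tendsto sysK)
open Pool.Agent.W353.AB (syE)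
open Pool.Agent.TH322.BC
open Pool.Agent.TH322.BC.Edge (MinimalModels LSeries size HasOrder orders size_base)
open Pool.Agent.X288.L2 (PP QQ EC TT_newform abs_TT_le Cls hw hw_self kappa₂ pairOrbits pairRel has_pair mean_fix
  mean_fix_orbits chi_one' fixn_self P_eq Q_eq PQ_ne)
open Pool.Agent.Y722.EP (IsModular rE abs_rE NotIsogenous)
open Pool.Agent.W353.EF (perm)

/-- Any two pairs of embeddings of `F` and `F'` in the algebraic closure are conjugate: the tensor product of `F` and `F'` over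
the rational numbers is a field. -/
def Disj (F F' : Type) [Field F] [Field F'] [Algebra ℚ F] [Algebra ℚ F'] : Prop :=
  ∀ (i i' : F →ₐ[ℚ] AlgebraicClosure ℚ) (j j' : F' →ₐ[ℚ] AlgebraicClosure ℚ),
    ∃ σ : Gal(AlgebraicClosure ℚ/ℚ), perm ℚ F σ i = i' ∧ perm ℚ F' σ j = j'

section
variable {F F' : Type} [Field F] [NumberField F] [Field F'] [NumberField F'] [Algebra ℚ F] [Algebra ℚ F']

theorem cls_fix (F : Type) [Field F] [NumberField F] [Algebra ℚ F] (δ : ℝ) :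
    Cls (act ℚ F).ker (fun g => (fixn ℚ F g : ℝ) - δ) :=
  ⟨fun g u hu => by
      have : fixn ℚ F (g * u) = fixn ℚ F g := fixn_mul_ker ℚ F g u hu
      rw [this], fun g ρ => by rw [fixn_conj], fun g => by rw [fixn_inv]⟩

theorem Cls.mono {U V : Subgroup (GK ℚ)} (hUV : U ≤ V) {ψ : GK ℚ → ℝ} (h : Cls V ψ) : Cls U ψ :=
  ⟨fun g u hu => h.hU g u (hUV hu), h.hc, h.hi⟩

/-- the common kernel -/
noncomputable def UU (F F' : Type) [Field F] [NumberField F] [Field F'] [NumberField F'] [Algebra ℚ F]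
    [Algebra ℚ F'] : Subgroup (GK ℚ) := (act ℚ F).ker ⊓ (act ℚ F').ker

instance : (UU F F').Normal := by
  unfold UU
  infer_instance

theorem UU_open (F F' : Type) [Field F] [NumberField F] [Field F'] [NumberField F'] [Algebra ℚ F]
    [Algebra ℚ F'] : IsOpen (UU F F' : Set (GK ℚ)) := by
  have h : ((UU F F' : Subgroup (GK ℚ)) : Set (GK ℚ)) =
      ((act ℚ F).ker : Set (GK ℚ)) ∩ ((act ℚ F').ker : Set (GK ℚ)) := rfl
  rw [h]
  exact (ker_act_open ℚ F).inter (ker_act_open ℚ F')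

instance : Finite (GK ℚ ⧸ UU F F') := Subgroup.quotient_finite_of_isOpen _ (UU_open F F')

instance : Finite (GK ℚ ⧸ (act ℚ F).ker) := Subgroup.quotient_finite_of_isOpen _ (ker_act_open ℚ F)

theorem fix_ker (F : Type) [Field F] [NumberField F] [Algebra ℚ F] (g : GK ℚ) :
    ∀ u ∈ (act ℚ F).ker, (fixn ℚ F (g * u) : ℝ) = fixn ℚ F g := fun u hu => by
  have : fixn ℚ F (g * u) = fixn ℚ F g := fixn_mul_ker ℚ F g u hu
  rw [this]

theorem mean_left : avR (UU F F') (fun q => (fixn ℚ F q.out : ℝ)) = 1 := by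
  rw [avR_mono (U := UU F F') (V := (act ℚ F).ker) inf_le_left (f := fun g => (fixn ℚ F g : ℝ))
    (fun g => fix_ker F g)]
  exact mean_fix

theorem mean_right : avR (UU F F') (fun q => (fixn ℚ F' q.out : ℝ)) = 1 := by
  rw [avR_mono (U := UU F F') (V := (act ℚ F').ker) inf_le_right (f := fun g => (fixn ℚ F' g : ℝ))
    (fun g => fix_ker F' g)]
  exact mean_fix

theorem mean_prod (δ : ℝ) : avR (UU F F') (fun q => ((fixn ℚ F q.out : ℝ) - δ) * ((fixn ℚ F' q.out : ℝ) - δ)) =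
    avR (UU F F') (fun q => (fixn ℚ F q.out : ℝ) * (fixn ℚ F' q.out : ℝ)) - 2 * δ + δ ^ 2 := by
  have e : (fun q : GK ℚ ⧸ UU F F' => ((fixn ℚ F q.out : ℝ) - δ) * ((fixn ℚ F' q.out : ℝ) - δ)) =
      fun q => (fixn ℚ F q.out : ℝ) * (fixn ℚ F' q.out : ℝ) + ((-δ) * (fixn ℚ F q.out : ℝ) +
        ((-δ) * (fixn ℚ F' q.out : ℝ) + δ ^ 2)) := by
    funext q
    ring
  rw [e, avR_add, avR_add, avR_add, avR_const_mul, avR_const_mul, avR_one, mean_left, mean_right]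
  ring

theorem mean_same : avR (UU F F) (fun q => (fixn ℚ F q.out : ℝ) * (fixn ℚ F q.out : ℝ)) = pairOrbits ℚ F := by
  have h := avR_mono (U := UU F F) (V := (act ℚ F).ker) inf_le_left
    (f := fun g => (fixn ℚ F g : ℝ) * (fixn ℚ F g : ℝ)) (fun g u hu => by
      simp only [fix_ker F g u hu])
  rw [h]
  have h1 := mean_fix_orbits (K := ℚ) (F := F)
  rw [← h1]
  congr 1
  funext q
  ring

theorem mean_disj (h : Disj F F') :
    avR (UU F F') (fun q => (fixn ℚ F q.out : ℝ) * (fixn ℚ F' q.out : ℝ)) = 1 := by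
  classical
  set Y := (F →ₐ[ℚ] AlgebraicClosure ℚ) with hY
  set Y' := (F' →ₐ[ℚ] AlgebraicClosure ℚ) with hY'
  set Φ : GK ℚ →* Equiv.Perm Y × Equiv.Perm Y' := (act ℚ F).prod (act ℚ F') with hΦ
  have hker : UU F F' = Φ.ker := by
    ext g
    rw [MonoidHom.mem_ker]
    constructor
    · rintro ⟨h1, h2⟩
      exact Prod.ext h1 h2
    · intro h
      exact ⟨congrArg Prod.fst h, congrArg Prod.snd h⟩
  have hfinY : Finite Y := inferInstance
  have hfinY' : Finite Y' := inferInstance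
  let G : Equiv.Perm Y × Equiv.Perm Y' → ℝ := fun z =>
    (Nat.card {y // z.1 y = y} : ℝ) * (Nat.card {y // z.2 y = y} : ℝ)
  have g1 := avR_ker Φ G
  have g2 : avR (UU F F') (fun q => (fixn ℚ F q.out : ℝ) * (fixn ℚ F' q.out : ℝ)) =
      avR Φ.ker (fun q => G (Φ q.out)) := by
    rw [← hker]
    rfl
  rw [g2, g1]
  -- the action on the pairs
  let A : Φ.range →* Equiv.Perm (Y × Y') :=
    { toFun := fun z => Equiv.prodCongr z.1.1 z.1.2
      map_one' := rfl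
      map_mul' := fun _ _ => rfl }
  have hne : Nonempty (Y × Y') := ⟨((IsAlgClosed.lift : F →ₐ[ℚ] AlgebraicClosure ℚ),
    (IsAlgClosed.lift : F' →ₐ[ℚ] AlgebraicClosure ℚ))⟩
  have g3 := burnside (G := Φ.range) (Y := Y × Y') A (fun z w => by
    obtain ⟨σ, h1, h2⟩ := h z.1 w.1 z.2 w.2
    exact ⟨⟨Φ σ, ⟨σ, rfl⟩⟩, Prod.ext h1 h2⟩)
  have g4 : ∑ᶠ z : Φ.range, G z = ∑ᶠ z : Φ.range, ((Nat.card {y // A z y = y} : ℕ) : ℝ) := by
    refine finsum_congr fun z => ?_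
    have e1 : Nat.card {y // A z y = y} = Nat.card {y // z.1.1 y = y} * Nat.card {y // z.1.2 y = y} := by
      rw [← Nat.card_prod]
      refine Nat.card_congr
        { toFun := fun w => (⟨w.1.1, congrArg Prod.fst w.2⟩, ⟨w.1.2, congrArg Prod.snd w.2⟩)
          invFun := fun p => ⟨(p.1.1, p.2.1), Prod.ext p.1.2 p.2.2⟩
          left_inv := fun w => rfl
          right_inv := fun p => rfl }
    rw [e1, Nat.cast_mul]
  rw [g4, g3]
  have : (Nat.card Φ.range : ℝ) ≠ 0 := by exact_mod_cast Nat.card_pos.ne'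
  field_simp

variable {σ : HeightOneSpectrum (𝓞 ℚ) → GK ℚ} (hσ : ∀ v, IsFrob v (σ v))

include hσ in
theorem has_fix (F F' : Type) [Field F] [NumberField F] [Field F'] [NumberField F'] [Algebra ℚ F]
    [Algebra ℚ F'] (δ s t : ℝ) :
    Has (fun v => (((fixn ℚ F (σ v) : ℝ) - δ) * cz s v) * (((fixn ℚ F' (σ v) : ℝ) - δ) * cz t v))
      (hw s t * (avR (UU F F') (fun q => (fixn ℚ F q.out : ℝ) * (fixn ℚ F' q.out : ℝ)) - 2 * δ + δ ^ 2)) := by
  have h := has_pair (UU_open F F') σ hσ (Cls.mono inf_le_left (cls_fix F δ) : Cls (UU F F') _)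
    (Cls.mono inf_le_right (cls_fix F' δ) : Cls (UU F F') _) s t
  rw [mean_prod] at h
  exact h

theorem hw_zero {s t : ℝ} (h : |s| ≠ |t|) : hw s t = 0 := by
  unfold hw
  rw [if_neg (fun h' => h (by rw [h'])), if_neg (fun h' => h (by
    have : s = -t := by linarith
    rw [this, abs_neg]))]
  norm_num

include hσ in
theorem has_fix_height (F F' : Type) [Field F] [NumberField F] [Field F'] [NumberField F'] [Algebra ℚ F]
    [Algebra ℚ F'] (δ : ℝ) {s t : ℝ} (h : |s| ≠ |t|) :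
    Has (fun v => (((fixn ℚ F (σ v) : ℝ) - δ) * cz s v) * (((fixn ℚ F' (σ v) : ℝ) - δ) * cz t v)) 0 := by
  have h1 := has_fix hσ F F' δ s t
  rwa [hw_zero h, zero_mul] at h1

include hσ in
theorem has_fix_disj (h : Disj F F') (s t : ℝ) :
    Has (fun v => (((fixn ℚ F (σ v) : ℝ) - 1) * cz s v) * (((fixn ℚ F' (σ v) : ℝ) - 1) * cz t v)) 0 := by
  have h1 := has_fix hσ F F' 1 s t
  rw [mean_disj h] at h1
  have e : hw s t * (1 - 2 * 1 + 1 ^ 2) = 0 := by ring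
  rwa [e] at h1

include hσ in
theorem has_fix_same (F : Type) [Field F] [NumberField F] [Algebra ℚ F] (δ t : ℝ) :
    Has (fun v => (((fixn ℚ F (σ v) : ℝ) - δ) * cz t v) * (((fixn ℚ F (σ v) : ℝ) - δ) * cz t v))
      (kappa₂ t * ((pairOrbits ℚ F : ℝ) - 2 * δ + δ ^ 2)) := by
  have h1 := has_fix hσ F F δ t t
  rw [mean_same, hw_self] at h1
  exact h1

end

section
variable {a b : ℤ} (hab : 4 * a ^ 3 + 27 * b ^ 2 ≠ 0)
variable {F : Type} [Field F] [NumberField F] [Algebra ℚ F]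
  {V : HeightOneSpectrum (𝓞 F) → WeierstrassCurve (𝓞 F)}
  {V₀ : HeightOneSpectrum (𝓞 ℚ) → WeierstrassCurve (𝓞 ℚ)}
  {σ : HeightOneSpectrum (𝓞 ℚ) → GK ℚ} (hσ : ∀ v, IsFrob v (σ v))

include hab hσ in
theorem szh_own (hV : MinimalModels ((EC ℚ a b).map (algebraMap ℚ F)) V) (τ : ℝ) :
    (∀ᶠ ε : ℝ in 𝓝[>] 0, LSeries V (3 / 2 + τ * Complex.I + ε) ≠ 0) ∧
    SzH (Pool.Agent.W353.NF.TT (syE (PP ℚ a) (QQ ℚ b)))
      (fun v => (fixn ℚ F (σ v) : ℝ) * cz τ v) (size V τ) := by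
  have s1 := size_base one_ne_zero (P_eq a b) (Q_eq a b) (PQ_ne hab) hV τ
  have z1 : SzH (Pool.Agent.W353.NF.TT (syE (PP ℚ a) (QQ ℚ b)))
      (fun v => (chi ℚ (((1 : 𝓞 F) : F)) (σ v) : ℝ) * cz τ v) (size V τ) :=
    size_chi _ (syE_real _ _) one_ne_zero
      (Pool.Agent.TH322.BC.Edge.syE_D _ _ _) σ hσ s1.2
  exact ⟨s1.1, z1.congr (fun v => by
      rw [chi_one']
      push_cast
      ring) (fun ε => rfl)⟩

include hab hσ in
theorem szh_base (hV₀ : MinimalModels (EC ℚ a b) V₀) (τ : ℝ) :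
    (∀ᶠ ε : ℝ in 𝓝[>] 0, LSeries V₀ (3 / 2 + τ * Complex.I + ε) ≠ 0) ∧
    SzH (Pool.Agent.W353.NF.TT (syE (PP ℚ a) (QQ ℚ b))) (fun v => cz τ v) (size V₀ τ) := by
  have hV₀' : MinimalModels ((EC ℚ a b).map (algebraMap ℚ ℚ)) V₀ := by
    have : (EC ℚ a b).map (algebraMap ℚ ℚ) = EC ℚ a b := (EC ℚ a b).map_id
    rwa [this]
  have h := szh_own (F := ℚ) hab hσ hV₀' τ
  exact ⟨h.1, h.2.congr (fun v => by rw [fixn_self, Nat.cast_one, one_mul]) fun ε => rfl⟩

theorem fixn_le_deg (F : Type) [Field F] [NumberField F] [Algebra ℚ F] (g : GK ℚ) :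
    fixn ℚ F g ≤ Module.finrank ℚ F := by
  have h1 : fixn ℚ F g ≤ Nat.card (F →ₐ[ℚ] AlgebraicClosure ℚ) := by
    unfold fixn
    exact Nat.card_le_card_of_injective Subtype.val Subtype.val_injective
  have h2 : Nat.card (F →ₐ[ℚ] AlgebraicClosure ℚ) = Module.finrank ℚ F := by
    rw [Nat.card_eq_fintype_card]
    exact AlgHom.card ℚ F (AlgebraicClosure ℚ)
  exact h1.trans h2.le

theorem fix_bdd (F : Type) [Field F] [NumberField F] [Algebra ℚ F] (δ τ : ℝ)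
    (σ : HeightOneSpectrum (𝓞 ℚ) → GK ℚ) (v : HeightOneSpectrum (𝓞 ℚ)) :
    |((fixn ℚ F (σ v) : ℝ) - δ) * cz τ v| ≤ Module.finrank ℚ F + |δ| := by
  rw [abs_mul]
  have h1 : |(fixn ℚ F (σ v) : ℝ) - δ| ≤ Module.finrank ℚ F + |δ| := by
    refine (abs_sub _ _).trans (add_le_add ?_ le_rfl)
    rw [Nat.abs_cast]
    exact_mod_cast fixn_le_deg F (σ v)
  calc _ ≤ ((Module.finrank ℚ F : ℝ) + |δ|) * 1 := mul_le_mul h1 (abs_cz τ v) (abs_nonneg _) (by positivity)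
    _ = _ := mul_one _

include hab hσ in
theorem szh_diff (hV : MinimalModels ((EC ℚ a b).map (algebraMap ℚ F)) V)
    (hV₀ : MinimalModels (EC ℚ a b) V₀) (τ : ℝ) :
    SzH (Pool.Agent.W353.NF.TT (syE (PP ℚ a) (QQ ℚ b)))
      (fun v => ((fixn ℚ F (σ v) : ℝ) - 1) * cz τ v) (fun ε => size V τ ε - size V₀ τ ε) := by
  have z1 := (szh_own hab hσ hV τ).2
  have z0 := (szh_base hab hσ hV₀ τ).2
  have hb1 : ∀ v, |(fixn ℚ F (σ v) : ℝ) * cz τ v| ≤ Module.finrank ℚ F + |(0 : ℝ)| := fun v => by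
    have := fix_bdd F 0 τ σ v
    rwa [sub_zero] at this
  have hb0 : ∀ v : HeightOneSpectrum (𝓞 ℚ), |(-1 : ℝ) * cz τ v| ≤ 1 := fun v => by
    rw [abs_mul, abs_neg, abs_one, one_mul]
    exact abs_cz τ v
  exact (z1.add (z0.const_mul (-1)) (abs_TT_le a b) hb1 hb0).congr (fun v => by ring) fun ε => by ring

include hab hσ in
theorem link_own (hmod : IsModular a b) (hV : MinimalModels ((EC ℚ a b).map (algebraMap ℚ F)) V) (τ : ℝ) :
    Tendsto (fun ε => (EP (nm ℚ) ε fun v => rE a b v * (((fixn ℚ F (σ v) : ℝ) - 0) * cz τ v)) / lam ε -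
      size V τ ε) (𝓝[>] 0) (𝓝 0) :=
  link hab hmod (fix_bdd F 0 τ σ) ((szh_own hab hσ hV τ).2.congr (fun v => by rw [sub_zero]) fun _ => rfl)

include hab hσ in
theorem link_diff (hmod : IsModular a b) (hV : MinimalModels ((EC ℚ a b).map (algebraMap ℚ F)) V)
    (hV₀ : MinimalModels (EC ℚ a b) V₀) (τ : ℝ) :
    Tendsto (fun ε => (EP (nm ℚ) ε fun v => rE a b v * (((fixn ℚ F (σ v) : ℝ) - 1) * cz τ v)) / lam ε -
      (size V τ ε - size V₀ τ ε)) (𝓝[>] 0) (𝓝 0) :=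
  link hab hmod (fix_bdd F 1 τ σ) (szh_diff hab hσ hV hV₀ τ)

end

end Pool.Agent.T2H28.BF
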