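import Pool.Agent.T2H28.BF.Rows

/-! One modular elliptic curve over all number fields: the governing field, primitive fields and disjoint families. -/

set_option autoImplicit false

namespace Pool.Agent.T2H28.BF

open Complex Filter Topology ComplexConjugate NumberField IsDedekindDomain
  Pool.Agent.W401.Cheb Pool.Agent.W540.BE Pool.Agent.W353.L1
open Pool.Agent.TH322.BC.Edge (MinimalModels LSeries size HasOrder orders)
open Pool.Agent.X288.L2 (EC kappa₂ pairOrbits pairRel)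
open Pool.Agent.Y722.EP (IsModular rE abs_rE NotIsogenous)

section
variable {a b : ℤ} (hab : 4 * a ^ 3 + 27 * b ^ 2 ≠ 0) (hmod : IsModular a b)

include hab hmod in
theorem gov_all (c : ℕ) : ∃ M : IntermediateField ℚ (AlgebraicClosure ℚ),
    FiniteDimensional ℚ M ∧ IsGalois ℚ M ∧
    (∀ (F F' : IntermediateField ℚ (AlgebraicClosure ℚ)) [NumberField F] [NumberField F'],
      F' = F ⊓ M → pairOrbits ℚ F ≤ c →
      ∀ (V : HeightOneSpectrum (𝓞 F) → WeierstrassCurve (𝓞 F))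
        (V' : HeightOneSpectrum (𝓞 F') → WeierstrassCurve (𝓞 F')) (τ : ℝ) (m m' : ℤ),
        MinimalModels ((EC ℚ a b).map (algebraMap ℚ F)) V →
        MinimalModels ((EC ℚ a b).map (algebraMap ℚ F')) V' →
        HasOrder V τ m → HasOrder V' τ m' → m = m') ∧
    ∀ (F : IntermediateField ℚ (AlgebraicClosure ℚ)) [NumberField F],
      F ⊓ M = ⊥ → pairOrbits ℚ F ≤ c →
      ∀ (V : HeightOneSpectrum (𝓞 F) → WeierstrassCurve (𝓞 F))
        (V₀ : HeightOneSpectrum (𝓞 ℚ) → WeierstrassCurve (𝓞 ℚ)) (τ : ℝ) (m m₀ : ℤ),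
        MinimalModels ((EC ℚ a b).map (algebraMap ℚ F)) V → MinimalModels (EC ℚ a b) V₀ →
        HasOrder V τ m → HasOrder V₀ τ m₀ → m = m₀ := by
  classical
  obtain ⟨hfin, -⟩ := heights hab hmod c
  choose zF Mt h1 h2 h3 h4 h5 using fun τ : ℝ => gov_tau hab hmod c τ
  have hN : ∃ N : IntermediateField ℚ (AlgebraicClosure ℚ), FiniteDimensional ℚ N ∧ IsGalois ℚ N ∧
      ∀ i ∈ hfin.toFinset, Mt i ≤ N := sup_galois (K := ℚ) hfin.toFinset Mt h1 h2
  obtain ⟨N, hN1, hN2, hN3⟩ := hN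
  have hout : ∀ (τ : ℝ), τ ∉ hfin.toFinset → ∀ (F : Type) [Field F] [NumberField F] [Algebra ℚ F]
      (V : HeightOneSpectrum (𝓞 F) → WeierstrassCurve (𝓞 F)) (m : ℤ), pairOrbits ℚ F ≤ c →
      MinimalModels ((EC ℚ a b).map (algebraMap ℚ F)) V → HasOrder V τ m → m = 0 := by
    intro τ hτ F _ _ _ V m hF hV hm
    by_contra hne
    exact hτ ((Set.Finite.mem_toFinset hfin).2 ⟨F, inferInstance, inferInstance, inferInstance, V, m, hF, hV, hm, hne⟩)
  have key : ∀ (F : IntermediateField ℚ (AlgebraicClosure ℚ)) [NumberField F], pairOrbits ℚ F ≤ c →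
      ∀ τ ∈ hfin.toFinset, |zF τ F - zF τ (F ⊓ N)| < 1 := by
    intro F hFn hF τ hτ
    have hnf : NumberField (F ⊓ N : IntermediateField ℚ (AlgebraicClosure ℚ)) := by
      have hfd : FiniteDimensional ℚ F := inferInstance
      have hle : F ⊓ N ≤ F := inf_le_left
      have hfd' : FiniteDimensional ℚ (F ⊓ N : IntermediateField ℚ (AlgebraicClosure ℚ)) :=
        FiniteDimensional.of_injective (IntermediateField.inclusion hle).toLinearMap
          (IntermediateField.inclusion_injective hle)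
      exact NumberField.of_module_finite ℚ _
    have g1 := h3 τ F hF
    have g0 : pairOrbits ℚ (F ⊓ N : IntermediateField ℚ (AlgebraicClosure ℚ)) ≤ pairOrbits ℚ F :=
      orbits_mono (K := ℚ) inf_le_left
    have g2 := h3 τ (F ⊓ N) (g0.trans hF)
    have g3 : F ⊓ N ⊓ Mt τ = F ⊓ Mt τ := by
      rw [inf_assoc]
      congr 1
      exact inf_eq_right.2 (hN3 τ hτ)
    rw [g3] at g2
    rw [abs_lt] at g1 g2 ⊢
    constructor <;> linarith
  refine ⟨N, hN1, hN2, ?_, ?_⟩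
  · intro F F' hFn hFn' hFF hF V V' τ m m' hV hV' hm hm'
    have hF' : pairOrbits ℚ F' ≤ c := by
      refine le_trans ?_ hF
      exact orbits_mono (K := ℚ) (hFF.le.trans inf_le_left)
    by_cases hτ : τ ∈ hfin.toFinset
    · have g1 := key F hF τ hτ
      rw [← hFF, h4 τ F V m hV hm, h4 τ F' V' m' hV' hm'] at g1
      have g2 : |((m' - m : ℤ) : ℝ)| < 1 := by
        push_cast
        rwa [show (m' : ℝ) - m = -(m : ℝ) - -(m' : ℝ) by ring]
      have g3 : |m' - m| < 1 := by exact_mod_cast g2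
      have g4 := Int.abs_lt_one_iff.1 g3
      omega
    · rw [hout τ hτ F V m hF hV hm, hout τ hτ F' V' m' hF' hV' hm']
  · intro F hFn hFM hF V V₀ τ m m₀ hV hV₀ hm hm₀
    by_cases hτ : τ ∈ hfin.toFinset
    · have g1 := key F hF τ hτ
      rw [hFM, h4 τ F V m hV hm, h5 τ V₀ m₀ hV₀ hm₀] at g1
      have g2 : |((m₀ - m : ℤ) : ℝ)| < 1 := by
        push_cast
        rwa [show (m₀ : ℝ) - m = -(m : ℝ) - -(m₀ : ℝ) by ring]
      have g3 : |m₀ - m| < 1 := by exact_mod_cast g2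
      have g4 := Int.abs_lt_one_iff.1 g3
      omega
    · have hV₀' : MinimalModels ((EC ℚ a b).map (algebraMap ℚ ℚ)) V₀ := by
        have : (EC ℚ a b).map (algebraMap ℚ ℚ) = EC ℚ a b := (EC ℚ a b).map_id
        rwa [this]
      have hQ : pairOrbits ℚ ℚ ≤ c := by
        have g1 := orbits_le ℚ
        rw [Module.finrank_self] at g1
        have g2 := one_le_orbits F
        omega
      rw [hout τ hτ F V m hF hV hm, hout τ hτ ℚ V₀ m₀ hQ hV₀' hm₀]

include hab hmod in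
/-- primitive fields -/
theorem prim (c : ℕ) : {F : IntermediateField ℚ (AlgebraicClosure ℚ) | ∃ _ : NumberField F,
    (∀ F' : IntermediateField ℚ (AlgebraicClosure ℚ), F' ≤ F → F' = ⊥ ∨ F' = F) ∧
    pairOrbits ℚ F ≤ c ∧ ∃ (V₀ : HeightOneSpectrum (𝓞 ℚ) → WeierstrassCurve (𝓞 ℚ))
      (V : HeightOneSpectrum (𝓞 F) → WeierstrassCurve (𝓞 F)) (τ : ℝ) (m₀ m : ℤ),
      MinimalModels (EC ℚ a b) V₀ ∧ MinimalModels ((EC ℚ a b).map (algebraMap ℚ F)) V ∧
      HasOrder V₀ τ m₀ ∧ HasOrder V τ m ∧ m ≠ m₀}.Finite := by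
  obtain ⟨M, h1, h2, h3, h4⟩ := gov_all hab hmod c
  refine (fin_below (K := ℚ) M h1).subset ?_
  rintro F ⟨hF, hp, hc, V₀, V, τ, m₀, m, g1, g2, g3, g4, g5⟩
  by_contra hle
  rcases hp (F ⊓ M) inf_le_left with h | h
  · exact g5 (h4 F h hc V V₀ τ m m₀ g2 g1 g4 g3)
  · exact hle (inf_eq_left.1 h)

include hab hmod in
/-- disjoint families -/
theorem disj_fam (c : ℕ) (κ : Type) (F : κ → Type) [∀ k, Field (F k)] [∀ k, NumberField (F k)]
    [∀ k, Algebra ℚ (F k)] (hc : ∀ k, pairOrbits ℚ (F k) ≤ c)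
    (hd : ∀ k l, k ≠ l → Disj (F k) (F l))
    (V : ∀ k, HeightOneSpectrum (𝓞 (F k)) → WeierstrassCurve (𝓞 (F k)))
    (hV : ∀ k, MinimalModels ((EC ℚ a b).map (algebraMap ℚ (F k))) (V k))
    (V₀ : HeightOneSpectrum (𝓞 ℚ) → WeierstrassCurve (𝓞 ℚ)) (hV₀ : MinimalModels (EC ℚ a b) V₀) :
    {k | ∃ (τ : ℝ) (m₀ m : ℤ), HasOrder V₀ τ m₀ ∧ HasOrder (V k) τ m ∧ m ≠ m₀}.Finite ∧
    {k | ∃ (τ : ℝ) (m₀ m : ℤ), HasOrder V₀ τ m₀ ∧ HasOrder (V k) τ m ∧ m ≠ m₀}.ncard ≤ c - 1 := by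
  classical
  refine card_le fun J hJ => ?_
  choose τ m₀ m h1 h2 h3 using fun k : J => hJ k.1 k.2
  have hr : ∀ k : J, 2 ≤ pairOrbits ℚ (F k.1) := by
    intro k
    have g1 := ((Pool.Agent.X288.L2.base_change hab hmod hV₀ (hV k.1) (τ k)).2.2 (m₀ k) (m k)
      (h1 k) (h2 k)).1
    by_contra hcon
    have g2 := one_le_orbits (F k.1)
    have g3 : pairOrbits ℚ (F k.1) = 1 := by omega
    rw [g3, Nat.cast_one, sub_self, mul_zero] at g1
    have g4 : ((m k : ℝ) - m₀ k) = 0 := by nlinarith [sq_nonneg ((m k : ℝ) - m₀ k)]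
    apply h3 k
    have : (m k : ℝ) = m₀ k := by linarith
    exact_mod_cast this
  have h4 := rows_diff_orders hab hmod (fun k : J => F k.1) (fun k => V k.1) (fun k => hV k.1) τ hV₀ hr
    (fun k l hkl => Or.inr (hd k.1 l.1 fun h => hkl (Subtype.ext h))) h1 h2
  rcases J.eq_empty_or_nonempty with hJ0 | ⟨k0, hk0⟩
  · rw [hJ0, Finset.card_empty]
    exact Nat.zero_le _
  have hc2 : 2 ≤ c := (hr ⟨k0, hk0⟩).trans (hc k0)
  have hcR : (2 : ℝ) ≤ c := by exact_mod_cast hc2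
  have h5 : ∀ k : J, 1 / ((c : ℝ) - 1) ≤ ((m k : ℝ) - m₀ k) ^ 2 /
      (kappa₂ (τ k) * (pairOrbits ℚ (F k.1) - 1)) := by
    intro k
    have g1 : (1 : ℝ) ≤ ((m k : ℝ) - m₀ k) ^ 2 := by
      have h6 : m k - m₀ k ≠ 0 := sub_ne_zero.2 (h3 k)
      have h7 : 1 ≤ (m k - m₀ k) ^ 2 := by
        have := sq_nonneg (m k - m₀ k)
        have h8 : (m k - m₀ k) ^ 2 ≠ 0 := pow_ne_zero 2 h6
        omega
      exact_mod_cast h7
    have g2 : ((pairOrbits ℚ (F k.1) : ℕ) : ℝ) ≤ c := by exact_mod_cast hc k.1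
    have g3 : (2 : ℝ) ≤ (pairOrbits ℚ (F k.1) : ℕ) := by exact_mod_cast hr k
    have g4 := kap_pos (τ k)
    have g5 := kap_le (τ k)
    have g6 : (0 : ℝ) < (c : ℝ) - 1 := by linarith
    have g7 : 0 < kappa₂ (τ k) * ((pairOrbits ℚ (F k.1) : ℝ) - 1) := mul_pos g4 (by linarith)
    rw [div_le_div_iff₀ g6 g7]
    have g8 : kappa₂ (τ k) * ((pairOrbits ℚ (F k.1) : ℝ) - 1) ≤ 1 * ((c : ℝ) - 1) :=
      mul_le_mul g5 (by linarith) (by linarith) (by norm_num)
    nlinarith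
  have h6 := (Finset.sum_le_sum fun k (_ : k ∈ Finset.univ) => h5 k).trans h4
  rw [Finset.sum_const, Finset.card_univ, Fintype.card_coe, nsmul_eq_mul, mul_one_div,
    div_le_one (by linarith)] at h6
  have h7 : ((J.card + 1 : ℕ) : ℝ) ≤ (c : ℕ) := by
    push_cast
    linarith
  have h8 : J.card + 1 ≤ c := by exact_mod_cast h7
  omega

end

end Pool.Agent.T2H28.BF
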