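import Pool.Agent.T2H28.BF.Alg

/-! The governing fields for the orders. -/

set_option autoImplicit false

namespace Pool.Agent.T2H28.BF

open Complex Filter Topology ComplexConjugate NumberField IsDedekindDomain
  Pool.Agent.W401.Cheb Pool.Agent.W540.BE Pool.Agent.W353.L1 Pool.Agent.W353.SP
open Pool.Agent.W353.NF (act act_apply act_trans fixn fixn_conj fixn_inv ker_act_open fixn_le
  fixn_mul_ker cz abs_cz)
open Pool.Agent.TH322.BC.Edge (MinimalModels LSeries size HasOrder orders)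
open Pool.Agent.X288.L2 (EC kappa₂ pairOrbits pairRel)
open Pool.Agent.W353.EF (perm)
open Pool.Agent.Y722.EP (IsModular rE abs_rE NotIsogenous)
open Pool.Agent.H341R2 (lam lam_tendsto sysK)

section
variable {K : Type} [Field K] [NumberField K]

theorem mn_le {ι : Type} {l l' : Filter ι} {E : ι → (HeightOneSpectrum (𝓞 K) → ℝ) → ℝ}
    (h : Mn l E) (hl : l' ≤ l) : Mn l' E where
  add f g hf hg := hl (h.add f g hf hg)
  smul := h.smul
  mono f g hf hg hfg := hl (h.mono f g hf hg hfg)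
  one := h.one.mono_left hl
  fin f hf hs := (h.fin f hf hs).mono_left hl
  cheb U _ _ hU ψ hψ c hc σ hσ := (h.cheb U hU ψ hψ c hc σ hσ).mono_left hl

/-- functions on the Galois group that are constant on the cosets of an open subgroup are bounded -/
theorem loc_bdd {U : Subgroup (GK K)} (hU : IsOpen (U : Set (GK K))) {f : GK K → ℝ}
    (hf : ∀ g, ∀ u ∈ U, f (g * u) = f g) : ∃ B : ℝ, ∀ g, |f g| ≤ B := by
  classical
  have hq : Finite (GK K ⧸ U) := Subgroup.quotient_finite_of_isOpen _ hU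
  let _ : Fintype (GK K ⧸ U) := Fintype.ofFinite _
  refine ⟨∑ q : GK K ⧸ U, |f q.out|, fun g => ?_⟩
  obtain ⟨u, hu⟩ := QuotientGroup.mk_out_eq_mul U g
  have h1 : f g = f (QuotientGroup.mk g : GK K ⧸ U).out := by
    rw [hu, hf g u u.2]
  rw [h1]
  exact Finset.single_le_sum (f := fun q : GK K ⧸ U => |f q.out|) (fun _ _ => abs_nonneg _)
    (Finset.mem_univ _)

theorem hconv_ultra {U' : Ultrafilter ℝ} {E : ℝ → (HeightOneSpectrum (𝓞 K) → ℝ) → ℝ}
    (h : Mn (U' : Filter ℝ) E) (σ : HeightOneSpectrum (𝓞 K) → GK K)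
    {T : HeightOneSpectrum (𝓞 K) → ℝ} (hT : Bd T) (U : Subgroup (GK K)) (hU : IsOpen (U : Set (GK K)))
    (f : GK K → ℝ) (hf : ∀ g, ∀ u ∈ U, f (g * u) = f g) :
    ∃ m : ℝ, Hs (U' : Filter ℝ) E (fun v => T v * f (σ v)) m := by
  obtain ⟨B, hB⟩ := loc_bdd hU hf
  have hb : Bd fun v => T v * f (σ v) := hT.mul ⟨B, fun v => hB (σ v)⟩
  obtain ⟨B', hB'⟩ := hb
  obtain ⟨m, hm⟩ := ulim U' (h.bound hB')
  exact ⟨m, ⟨B', hB'⟩, hm⟩

/-- the number of orbits is monotone -/
theorem orbits_mono {F F' : IntermediateField K (AlgebraicClosure K)} (h : F' ≤ F)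
    [NumberField F] [NumberField F'] : pairOrbits K F' ≤ pairOrbits K F := by
  classical
  let res : (F →ₐ[K] AlgebraicClosure K) → (F' →ₐ[K] AlgebraicClosure K) := fun i =>
    i.comp (IntermediateField.inclusion h)
  have hres : ∀ (σ : GK K) i, res (perm K F σ i) = perm K F' σ (res i) := fun σ i => rfl
  have hsurj : Function.Surjective res := by
    intro j
    obtain ⟨σ, hσ⟩ := act_trans K F' F'.val j
    refine ⟨perm K F σ F.val, ?_⟩
    rw [hres]
    exact hσ
  let φ : Quotient (pairRel K F) → Quotient (pairRel K F') := Quotient.map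
    (fun z => (res z.1, res z.2)) (by
      rintro z w ⟨σ, h1, h2⟩
      exact ⟨σ, by rw [← hres, h1], by rw [← hres, h2]⟩)
  have hφ : Function.Surjective φ := by
    intro q
    obtain ⟨⟨i', j'⟩, rfl⟩ := Quotient.exists_rep q
    obtain ⟨i, rfl⟩ := hsurj i'
    obtain ⟨j, rfl⟩ := hsurj j'
    exact ⟨Quotient.mk _ (i, j), rfl⟩
  exact Nat.card_le_card_of_surjective φ hφ

end

section
variable {a b : ℤ} (hab : 4 * a ^ 3 + 27 * b ^ 2 ≠ 0)

/-- an ultrafilter of small positive numbers -/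
noncomputable def UF : Ultrafilter ℝ := Ultrafilter.of (𝓝[>] (0 : ℝ))

theorem UF_le : (UF : Filter ℝ) ≤ 𝓝[>] 0 := Ultrafilter.of_le _

include hab in
/-- the governing field for one height -/
theorem gov_tau (hmod : IsModular a b) (c : ℕ) (τ : ℝ) :
    ∃ (zF : IntermediateField ℚ (AlgebraicClosure ℚ) → ℝ)
      (M : IntermediateField ℚ (AlgebraicClosure ℚ)), FiniteDimensional ℚ M ∧ IsGalois ℚ M ∧
      (∀ (F : IntermediateField ℚ (AlgebraicClosure ℚ)) [NumberField F], pairOrbits ℚ F ≤ c →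
        |zF F - zF (F ⊓ M)| < 1 / 2) ∧
      (∀ (F : IntermediateField ℚ (AlgebraicClosure ℚ)) [NumberField F]
        (V : HeightOneSpectrum (𝓞 F) → WeierstrassCurve (𝓞 F)) (m : ℤ),
        MinimalModels ((EC ℚ a b).map (algebraMap ℚ F)) V → HasOrder V τ m → zF F = -m) ∧
      ∀ (V₀ : HeightOneSpectrum (𝓞 ℚ) → WeierstrassCurve (𝓞 ℚ)) (m₀ : ℤ),
        MinimalModels (EC ℚ a b) V₀ → HasOrder V₀ τ m₀ → zF ⊥ = -m₀ := by
  classical
  choose σ hσ using exists_isFrob (F := ℚ)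
  have hM := mn_le (mnD ℚ) UF_le
  set T : HeightOneSpectrum (𝓞 ℚ) → ℝ := fun v => rE a b v * cz τ v with hT
  have hTb : ∀ v, |T v| ≤ 2 := fun v => by
    rw [hT]
    simp only
    rw [abs_mul]
    calc _ ≤ (2 : ℝ) * 1 := mul_le_mul (abs_rE a b v) (abs_cz τ v) (abs_nonneg _) (by norm_num)
      _ = 2 := mul_one _
  have hR : SqLe ℚ (fun F => (pairOrbits ℚ F : ℝ)) := by
    intro F _ L hL hfix hm S h1 h2 h3
    exact (sum_sq_orbits F hL hfix hm h1 h2 h3).le
  obtain ⟨zF, hz, hgov⟩ := spectral_gen hR hM hσ (by norm_num : (0 : ℝ) ≤ 2) hTb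
    fun U hU f hf => hconv_ultra hM σ ⟨2, hTb⟩ U hU f hf
  obtain ⟨M, h1, h2, h3⟩ := hgov c (1 / 2) (by norm_num)
  refine ⟨zF, M, h1, h2, fun F _ hF => h3 F (by exact_mod_cast hF), fun F _ V m hV hm => ?_,
    fun V₀ m₀ hV₀ hm₀ => ?_⟩
  swap
  · have g1 := szh_base hab hσ hV₀ τ
    have g2 := orders g1.1 hm₀
    have g3 := link hab hmod (B := 1) (fun v => abs_cz τ v) g1.2
    have hnf : NumberField (⊥ : IntermediateField ℚ (AlgebraicClosure ℚ)) :=
      NumberField.of_module_finite ℚ _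
    have g4 : Tendsto (fun ε => ED ℚ ε fun v => T v * fixn ℚ
        (⊥ : IntermediateField ℚ (AlgebraicClosure ℚ)) (σ v)) (𝓝[>] 0) (𝓝 (-(m₀ : ℝ))) := by
      have g5 := g3.add g2
      rw [zero_add] at g5
      refine g5.congr fun ε => ?_
      have e : (fun v => rE a b v * cz τ v) = fun v => T v * fixn ℚ
        (⊥ : IntermediateField ℚ (AlgebraicClosure ℚ)) (σ v) := by
        funext v
        have e1 : fixn ℚ (⊥ : IntermediateField ℚ (AlgebraicClosure ℚ)) (σ v) = 1 := fixn_bot (σ v)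
        rw [e1, Nat.cast_one, mul_one]
      rw [e]
      unfold ED
      ring
    exact tendsto_nhds_unique (@hz ⊥ hnf).2 (g4.mono_left UF_le)
  have g1 := szh_own (F := F) hab hσ hV τ
  have g2 := orders g1.1 hm
  have g3 := link_own (F := F) hab hσ hmod hV τ
  have g4 : Tendsto (fun ε => ED ℚ ε fun v => T v * fixn ℚ F (σ v)) (𝓝[>] 0) (𝓝 (-(m : ℝ))) := by
    have g5 := g3.add g2
    rw [zero_add] at g5
    refine g5.congr fun ε => ?_
    have e : (fun v => rE a b v * (((fixn ℚ F (σ v) : ℝ) - 0) * cz τ v)) =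
        fun v => T v * fixn ℚ F (σ v) := by
      funext v
      rw [hT]
      ring
    rw [e]
    unfold ED
    ring
  exact tendsto_nhds_unique (hz F).2 (g4.mono_left UF_le)

end

end Pool.Agent.T2H28.BF
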