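import Pool.Agent.T2H28.BF.Gov

/-! One modular elliptic curve over all number fields. -/

set_option autoImplicit false

namespace Pool.Agent.T2H28.BF

open Complex Filter Topology ComplexConjugate NumberField IsDedekindDomain
  Pool.Agent.W401.Cheb Pool.Agent.W540.BE Pool.Agent.W353.L1
open Pool.Agent.W353.NF (fixn cz abs_cz)
open Pool.Agent.TH322.BC.Edge (MinimalModels LSeries size HasOrder orders)
open Pool.Agent.X288.L2 (EC kappa₂ pairOrbits pairRel)
open Pool.Agent.Y722.EP (IsModular rE abs_rE NotIsogenous)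
open Pool.Agent.H341R2 (lam lam_tendsto sysK)

theorem kap_pos (t : ℝ) : 0 < kappa₂ t := by
  unfold kappa₂
  split_ifs <;> norm_num

theorem kap_le (t : ℝ) : kappa₂ t ≤ 1 := by
  unfold kappa₂
  split_ifs <;> norm_num

theorem kap_abs (t : ℝ) : kappa₂ |t| = kappa₂ t := by
  unfold kappa₂
  simp only [abs_eq_zero]

section
variable {a b : ℤ} (hab : 4 * a ^ 3 + 27 * b ^ 2 ≠ 0) (hmod : IsModular a b)
variable {κ : Type} [Fintype κ] (F : κ → Type) [∀ k, Field (F k)] [∀ k, NumberField (F k)]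
  [∀ k, Algebra ℚ (F k)]
  (V : ∀ k, HeightOneSpectrum (𝓞 (F k)) → WeierstrassCurve (𝓞 (F k)))
  (hV : ∀ k, MinimalModels ((EC ℚ a b).map (algebraMap ℚ (F k))) (V k)) (τ : κ → ℝ)

include hab hmod hV in
theorem rows_own (hτ : ∀ k l, k ≠ l → |τ k| ≠ |τ l|) {η : ℝ} (hη : 0 < η) :
    ∀ᶠ ε : ℝ in 𝓝[>] 0,
      ∑ k, size (V k) (τ k) ε ^ 2 / (kappa₂ (τ k) * pairOrbits ℚ (F k)) ≤ 1 + η := by
  classical
  choose σ hσ using exists_isFrob (F := ℚ)
  refine rows (T := fun v => rE a b v) (bT := 2) (abs_rE a b) (sec1 hab hmod)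
    (fun k v => ((fixn ℚ (F k) (σ v) : ℝ) - 0) * cz (τ k) v)
    (fun k => kappa₂ (τ k) * pairOrbits ℚ (F k)) (fun k => ?_) (fun k l => ?_)
    (fun k => ⟨_, fix_bdd (F k) 0 (τ k) σ⟩) (fun k ε => size (V k) (τ k) ε)
    (fun k => link_own hab hσ hmod (hV k) (τ k)) hη
  · have := one_le_orbits (F k)
    have h1 : (0 : ℝ) < pairOrbits ℚ (F k) := by exact_mod_cast this
    exact mul_pos (kap_pos _) h1
  · by_cases hkl : k = l
    · subst hkl
      rw [if_pos rfl]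
      refine (has_fix_same hσ (F k) 0 (τ k)).congr (fun v => rfl) ?_
      ring
    · rw [if_neg hkl]
      exact has_fix_height hσ (F k) (F l) 0 (hτ k l hkl)

include hab hmod hV in
theorem rows_diff {V₀ : HeightOneSpectrum (𝓞 ℚ) → WeierstrassCurve (𝓞 ℚ)}
    (hV₀ : MinimalModels (EC ℚ a b) V₀) (hr : ∀ k, 2 ≤ pairOrbits ℚ (F k))
    (hτ : ∀ k l, k ≠ l → |τ k| ≠ |τ l| ∨ Disj (F k) (F l)) {η : ℝ} (hη : 0 < η) :
    ∀ᶠ ε : ℝ in 𝓝[>] 0,
      ∑ k, (size (V k) (τ k) ε - size V₀ (τ k) ε) ^ 2 / (kappa₂ (τ k) * (pairOrbits ℚ (F k) - 1)) ≤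
        1 + η := by
  classical
  choose σ hσ using exists_isFrob (F := ℚ)
  refine rows (T := fun v => rE a b v) (bT := 2) (abs_rE a b) (sec1 hab hmod)
    (fun k v => ((fixn ℚ (F k) (σ v) : ℝ) - 1) * cz (τ k) v)
    (fun k => kappa₂ (τ k) * (pairOrbits ℚ (F k) - 1)) (fun k => ?_) (fun k l => ?_)
    (fun k => ⟨_, fix_bdd (F k) 1 (τ k) σ⟩) (fun k ε => size (V k) (τ k) ε - size V₀ (τ k) ε)
    (fun k => link_diff hab hσ hmod (hV k) hV₀ (τ k)) hη
  · have h1 : (2 : ℝ) ≤ pairOrbits ℚ (F k) := by exact_mod_cast hr k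
    exact mul_pos (kap_pos _) (by linarith)
  · by_cases hkl : k = l
    · subst hkl
      rw [if_pos rfl]
      refine (has_fix_same hσ (F k) 1 (τ k)).congr (fun v => rfl) ?_
      ring
    · rw [if_neg hkl]
      rcases hτ k l hkl with h | h
      · exact has_fix_height hσ (F k) (F l) 1 h
      · exact has_fix_disj hσ h (τ k) (τ l)

include hab hmod hV in
/-- the orders -/
theorem rows_own_orders (hτ : ∀ k l, k ≠ l → |τ k| ≠ |τ l|) {m : κ → ℤ}
    (hm : ∀ k, HasOrder (V k) (τ k) (m k)) :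
    ∑ k, (m k : ℝ) ^ 2 / (kappa₂ (τ k) * pairOrbits ℚ (F k)) ≤ 1 := by
  choose σ hσ using exists_isFrob (F := ℚ)
  have h1 : Tendsto (fun ε => ∑ k, size (V k) (τ k) ε ^ 2 / (kappa₂ (τ k) * pairOrbits ℚ (F k)))
      (𝓝[>] 0) (𝓝 (∑ k, (-(m k : ℝ)) ^ 2 / (kappa₂ (τ k) * pairOrbits ℚ (F k)))) :=
    tendsto_finsetSum _ fun k _ =>
      ((orders (szh_own hab hσ (hV k) (τ k)).1 (hm k)).pow 2).div_const _
  have h2 : ∑ k, (-(m k : ℝ)) ^ 2 / (kappa₂ (τ k) * pairOrbits ℚ (F k)) ≤ 1 :=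
    le_of_forall_pos_le_add fun η hη => le_of_tendsto h1 (rows_own hab hmod F V hV τ hτ hη)
  simpa only [neg_sq] using h2

include hab hmod hV in
/-- the orders of the quotients -/
theorem rows_diff_orders {V₀ : HeightOneSpectrum (𝓞 ℚ) → WeierstrassCurve (𝓞 ℚ)}
    (hV₀ : MinimalModels (EC ℚ a b) V₀) (hr : ∀ k, 2 ≤ pairOrbits ℚ (F k))
    (hτ : ∀ k l, k ≠ l → |τ k| ≠ |τ l| ∨ Disj (F k) (F l)) {m₀ m : κ → ℤ}
    (hm₀ : ∀ k, HasOrder V₀ (τ k) (m₀ k))
    (hm : ∀ k, HasOrder (V k) (τ k) (m k)) :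
    ∑ k, ((m k : ℝ) - m₀ k) ^ 2 / (kappa₂ (τ k) * (pairOrbits ℚ (F k) - 1)) ≤ 1 := by
  choose σ hσ using exists_isFrob (F := ℚ)
  have h1 : Tendsto (fun ε => ∑ k, (size (V k) (τ k) ε - size V₀ (τ k) ε) ^ 2 /
      (kappa₂ (τ k) * (pairOrbits ℚ (F k) - 1)))
      (𝓝[>] 0) (𝓝 (∑ k, (-(m k : ℝ) - -(m₀ k : ℝ)) ^ 2 / (kappa₂ (τ k) * (pairOrbits ℚ (F k) - 1)))) :=
    tendsto_finsetSum _ fun k _ =>
      (((orders (szh_own hab hσ (hV k) (τ k)).1 (hm k)).sub
        (orders (szh_base hab hσ hV₀ (τ k)).1 (hm₀ k))).pow 2).div_const _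
  have h2 : ∑ k, (-(m k : ℝ) - -(m₀ k : ℝ)) ^ 2 / (kappa₂ (τ k) * (pairOrbits ℚ (F k) - 1)) ≤ 1 :=
    le_of_forall_pos_le_add fun η hη => le_of_tendsto h1 (rows_diff hab hmod F V hV τ hV₀ hr hτ hη)
  refine (le_of_eq (Finset.sum_congr rfl fun k _ => ?_)).trans h2
  congr 1
  ring

end

section
variable {a b : ℤ} (hab : 4 * a ^ 3 + 27 * b ^ 2 ≠ 0) (hmod : IsModular a b)

include hab hmod in
/-- the heights with an order different from zero, for all number fields with at most `c` orbits -/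
theorem heights (c : ℕ) :
    {τ : ℝ | ∃ (F : Type) (_ : Field F) (_ : NumberField F) (_ : Algebra ℚ F)
      (V : HeightOneSpectrum (𝓞 F) → WeierstrassCurve (𝓞 F)) (m : ℤ), pairOrbits ℚ F ≤ c ∧
      MinimalModels ((EC ℚ a b).map (algebraMap ℚ F)) V ∧ HasOrder V τ m ∧ m ≠ 0}.Finite ∧
    {τ : ℝ | ∃ (F : Type) (_ : Field F) (_ : NumberField F) (_ : Algebra ℚ F)
      (V : HeightOneSpectrum (𝓞 F) → WeierstrassCurve (𝓞 F)) (m : ℤ), pairOrbits ℚ F ≤ c ∧
      MinimalModels ((EC ℚ a b).map (algebraMap ℚ F)) V ∧ HasOrder V τ m ∧ m ≠ 0}.ncard ≤ c := by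
  classical
  refine card_le fun J hJ => ?_
  set A : Finset ℝ := J.image fun t => |t| with hA
  have h1 : ∀ t : A, ∃ τ ∈ J, |τ| = t.1 := fun t => by
    obtain ⟨τ, h1, h2⟩ := Finset.mem_image.1 t.2
    exact ⟨τ, h1, h2⟩
  choose τ hτJ hτ using h1
  choose F i1 i2 i3 V m hr hV hm hm0 using fun t : A => hJ (τ t) (hτJ t)
  have h2 := @rows_own_orders a b hab hmod A _ F i1 i2 i3 V hV τ (fun k l hkl h => hkl (by
    rw [hτ, hτ] at h
    exact Subtype.ext h)) m hm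
  -- the terms
  by_cases hc : c = 0
  · have hJ0 : J = ∅ := by
      rw [Finset.eq_empty_iff_forall_notMem]
      intro t ht
      have h3 : |t| ∈ A := Finset.mem_image_of_mem _ ht
      have h4 := hr ⟨|t|, h3⟩
      have h5 := @one_le_orbits (F ⟨|t|, h3⟩) (i1 _) (i2 _) (i3 _)
      omega
    rw [hJ0, Finset.card_empty]
    exact Nat.zero_le _
  have hc0 : (0 : ℝ) < c := by exact_mod_cast Nat.pos_of_ne_zero hc
  have h3 : ∀ t : A, 1 / (kappa₂ t.1 * c) ≤ (m t : ℝ) ^ 2 /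
      (kappa₂ (τ t) * @pairOrbits ℚ (F t) _ (i1 t) (i3 t)) := by
    intro t
    have e1 : kappa₂ t.1 = kappa₂ (τ t) := by rw [← hτ t, kap_abs]
    rw [e1]
    have g1 : (1 : ℝ) ≤ (m t : ℝ) ^ 2 := by
      have := hm0 t
      have h5 : 1 ≤ (m t) ^ 2 := by
        have := sq_nonneg (m t)
        have h6 : (m t) ^ 2 ≠ 0 := pow_ne_zero 2 (hm0 t)
        omega
      exact_mod_cast h5
    have g2 : ((@pairOrbits ℚ (F t) _ (i1 t) (i3 t) : ℕ) : ℝ) ≤ c := by exact_mod_cast hr t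
    have g3 : (0 : ℝ) < (@pairOrbits ℚ (F t) _ (i1 t) (i3 t) : ℕ) := by
      exact_mod_cast @one_le_orbits (F t) (i1 t) (i2 t) (i3 t)
    have g4 := kap_pos (τ t)
    rw [div_le_div_iff₀ (by positivity) (by positivity)]
    nlinarith [mul_le_mul_of_nonneg_left g2 g4.le, mul_pos g4 hc0]
  have h4 : ∑ t : A, 1 / (kappa₂ t.1 * c) ≤ 1 := (Finset.sum_le_sum fun t _ => h3 t).trans h2
  rw [Finset.sum_coe_sort A (fun t => 1 / (kappa₂ t * c))] at h4
  have h5 : (J.card : ℝ) = ∑ t ∈ A, ((J.filter fun x => |x| = t).card : ℝ) := by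
    have := Finset.card_eq_sum_card_image (fun t : ℝ => |t|) J
    rw [this]
    push_cast
    rfl
  have h6 : ∀ t ∈ A, ((J.filter fun x => |x| = t).card : ℝ) ≤ 1 / kappa₂ t := by
    intro t _
    unfold kappa₂
    split_ifs with h0
    · subst h0
      have : (J.filter fun x => |x| = (0 : ℝ)) ⊆ {0} := by
        intro x hx
        rw [Finset.mem_filter] at hx
        rw [Finset.mem_singleton]
        exact abs_eq_zero.1 hx.2
      have h7 := Finset.card_le_card this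
      rw [Finset.card_singleton] at h7
      rw [div_one]
      exact_mod_cast h7
    · have : (J.filter fun x => |x| = t) ⊆ {t, -t} := by
        intro x hx
        rw [Finset.mem_filter] at hx
        rw [Finset.mem_insert, Finset.mem_singleton]
        rcases abs_choice x with h | h
        · left; rw [← hx.2, h]
        · right; rw [← hx.2, h, neg_neg]
      have h7 := (Finset.card_le_card this).trans Finset.card_le_two
      have h8 : ((J.filter fun x => |x| = t).card : ℝ) ≤ 2 := by exact_mod_cast h7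
      linarith
  have h7 : (J.card : ℝ) ≤ c := by
    rw [h5]
    refine (Finset.sum_le_sum h6).trans ?_
    have e : ∑ t ∈ A, 1 / kappa₂ t = (∑ t ∈ A, 1 / (kappa₂ t * c)) * c := by
      rw [Finset.sum_mul]
      refine Finset.sum_congr rfl fun t _ => ?_
      have := (kap_pos t).ne'
      field_simp
    rw [e]
    calc _ ≤ 1 * (c : ℝ) := mul_le_mul_of_nonneg_right h4 hc0.le
      _ = c := one_mul _
  exact_mod_cast h7

end

end Pool.Agent.T2H28.BF
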