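import Pool.Agent.T2H28.BF.Cols
import Pool.Agent.W353.SP.Inst

/-! The governing field, for all number fields with a bounded number of orbits on the pairs of embeddings. -/

set_option autoImplicit false

namespace Pool.Agent.T2H28.BF

open Complex Filter Topology ComplexConjugate NumberField IsDedekindDomain
  Pool.Agent.W401.Cheb Pool.Agent.W540.BE Pool.Agent.W353.L1 Pool.Agent.W353.AT Pool.Agent.W353.SP
open Pool.Agent.W353.NF (act act_apply act_trans fixn fixn_conj fixn_inv ker_act_open fixn_le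
  fixn_mul_ker cz)
open Pool.Agent.X288.L2 (kappa₂ pairOrbits)

theorem cz_zero (v : HeightOneSpectrum (𝓞 ℚ)) : cz 0 v = 1 := by
  unfold cz zz
  simp

/-- **The sum of the squares of the multiplicities** is the number of the orbits on the pairs of embeddings. -/
theorem sum_sq_orbits (F : IntermediateField ℚ (AlgebraicClosure ℚ)) [NumberField F]
    {L : List (MRep (GK ℚ))} (hL : ∀ x ∈ L, Irr x)
    (hfix : ∀ g, (fixn ℚ F g : ℂ) = (L.map fun x => x.2.character g).sum)
    (hm : ∀ x, Irr x → mult L x = fixedDim x.2 F) {S : Finset (MRep (GK ℚ))}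
    (hS : ∀ p ∈ S, p ∈ L) (hS2 : ∀ p ∈ S, ∀ q ∈ S, p ≠ q → ¬ Sim p q)
    (hS3 : ∀ x ∈ L, ∃ p ∈ S, Sim x p) :
    ∑ p ∈ S, (fixedDim p.2 F : ℝ) ^ 2 = pairOrbits ℚ F := by
  classical
  choose σ hσ using exists_isFrob (F := ℚ)
  obtain ⟨U, hUn, hU, hρ⟩ := exists_common (κ := S) (n := fun k => k.1.1)
    (fun k => k.1.2) fun k => (hL k.1 (hS k.1 k.2)).1
  have hfin : Finite (GK ℚ ⧸ U) := Subgroup.quotient_finite_of_isOpen U hU
  have hM := mnD ℚ
  -- the numbers of fixed embeddings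
  have hre : ∀ g, ((fixn ℚ F g : ℕ) : ℂ) = ∑ p ∈ S, (fixedDim p.2 F : ℂ) * p.2.character g := by
    intro g
    have h1 := list_fam (f := fun x : MRep (GK ℚ) => (x.2.character g).re) (P := Irr)
      (fun x y _ _ hs => by simp only [hs.char]) (S := S) (fun p hp => hL p (hS p hp)) hS2 L hL hS3
    have h2 := list_fam (f := fun x : MRep (GK ℚ) => (x.2.character g).im) (P := Irr)
      (fun x y _ _ hs => by simp only [hs.char]) (S := S) (fun p hp => hL p (hS p hp)) hS2 L hL hS3
    have e1 : ∀ L' : List (MRep (GK ℚ)), ((L'.map fun x : MRep (GK ℚ) => x.2.character g).sum).re =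
        (L'.map fun x : MRep (GK ℚ) => (x.2.character g).re).sum := by
      intro L'
      induction L' with
      | nil => simp
      | cons x L' ih => simp [ih]
    have e2 : ∀ L' : List (MRep (GK ℚ)), ((L'.map fun x : MRep (GK ℚ) => x.2.character g).sum).im =
        (L'.map fun x : MRep (GK ℚ) => (x.2.character g).im).sum := by
      intro L'
      induction L' with
      | nil => simp
      | cons x L' ih => simp [ih]
    rw [hfix g]
    apply Complex.ext
    · rw [e1, h1, Complex.re_sum]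
      refine Finset.sum_congr rfl fun p hp => ?_
      rw [hm p (hL p (hS p hp)), ← Complex.ofReal_natCast, Complex.re_ofReal_mul, mul_comm]
    · rw [e2, h2, Complex.im_sum]
      refine Finset.sum_congr rfl fun p hp => ?_
      rw [hm p (hL p (hS p hp)), ← Complex.ofReal_natCast, Complex.im_ofReal_mul, mul_comm]
  set g : HeightOneSpectrum (𝓞 ℚ) → ℂ := fun v => ∑ k : S, (fixedDim k.1.2 F : ℂ) *
    k.1.2.character (σ v)⁻¹ with hg
  have hgf : ∀ v, g v = ((fixn ℚ F (σ v) : ℝ) : ℂ) := by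
    intro v
    rw [hg]
    simp only
    rw [Finset.sum_coe_sort S (fun p => (fixedDim p.2 F : ℂ) * p.2.character (σ v)⁻¹), ← hre,
      fixn_inv, Complex.ofReal_natCast]
  have hgg : ∀ v, ‖g v‖ ^ 2 = ∑ k : S, ∑ k' : S, (fixedDim k.1.2 F : ℝ) * fixedDim k'.1.2 F *
      (k.1.2.character (σ v)⁻¹ * conj (k'.1.2.character (σ v)⁻¹)).re := by
    intro v
    have h1 : (‖g v‖ ^ 2 : ℝ) = (g v * conj (g v)).re := by
      rw [Complex.mul_conj, Complex.normSq_eq_norm_sq, Complex.ofReal_re]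
    rw [h1, hg]
    simp only
    rw [map_sum, Finset.sum_mul_sum, Complex.re_sum]
    refine Finset.sum_congr rfl fun k _ => ?_
    rw [Complex.re_sum]
    refine Finset.sum_congr rfl fun k' _ => ?_
    have h2 : (fixedDim k.1.2 F : ℂ) * k.1.2.character (σ v)⁻¹ *
        conj ((fixedDim k'.1.2 F : ℂ) * k'.1.2.character (σ v)⁻¹) =
        (((fixedDim k.1.2 F : ℝ) * fixedDim k'.1.2 F : ℝ) : ℂ) *
          (k.1.2.character (σ v)⁻¹ * conj (k'.1.2.character (σ v)⁻¹)) := by
      rw [map_mul]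
      have e : conj (fixedDim k'.1.2 F : ℂ) = (fixedDim k'.1.2 F : ℂ) := by
        rw [← Complex.ofReal_natCast, Complex.conj_ofReal]
      rw [e]
      push_cast
      ring
    rw [h2, Complex.re_ofReal_mul]
  have hmean : Hs (𝓝[>] 0) (ED ℚ) (fun v => ‖g v‖ ^ 2) (∑ p ∈ S, (fixedDim p.2 F : ℝ) ^ 2) := by
    have h1 := hM.hsSum Finset.univ fun (k : S) _ => hM.hsSum Finset.univ fun (k' : S) _ =>
      hM.hsMul (hM.ortho U hU (fun k : S => k.1.2) hρ σ hσ (hL k.1 (hS k.1 k.2)).2
        (hL k'.1 (hS k'.1 k'.2)).2 (k := k) (k' := k')) ((fixedDim k.1.2 F : ℝ) * fixedDim k'.1.2 F)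
    refine h1.congr (fun v => (hgg v).symm) ?_
    rw [← Finset.sum_coe_sort S (fun p => (fixedDim p.2 F : ℝ) ^ 2)]
    refine Finset.sum_congr rfl fun k _ => ?_
    rw [Finset.sum_eq_single k]
    · rw [if_pos ⟨Representation.Equiv.refl _⟩]
      ring
    · intro k' _ hkk
      rw [if_neg, mul_zero]
      exact hS2 k.1 k.2 k'.1 k'.2 fun h => hkk (Subtype.ext h.symm)
    · intro hk'
      exact absurd (Finset.mem_univ k) hk'
  have h2 := (has_fix_same hσ F 0 0)
  have e1 : kappa₂ 0 * ((pairOrbits ℚ F : ℝ) - 2 * 0 + 0 ^ 2) = pairOrbits ℚ F := by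
    have : kappa₂ 0 = 1 := if_pos rfl
    rw [this]
    ring
  rw [e1] at h2
  have h3 : Hs (𝓝[>] 0) (ED ℚ) (fun v => ((fixn ℚ F (σ v) : ℝ) - 0) * cz 0 v *
      (((fixn ℚ F (σ v) : ℝ) - 0) * cz 0 v)) (pairOrbits ℚ F : ℝ) := h2
  refine hmean.unique h3 fun v => ?_
  rw [hgf, cz_zero, Complex.norm_real, Real.norm_eq_abs, sq_abs]
  ring

section
variable {K : Type} [Field K] [NumberField K]

variable {ι : Type} {l : Filter ι} {E : ι → (HeightOneSpectrum (𝓞 K) → ℝ) → ℝ}
  {σ : HeightOneSpectrum (𝓞 K) → GK K} {T : HeightOneSpectrum (𝓞 K) → ℝ} {s : ℝ}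

/-- the hypothesis on the size of a number field -/
def SqLe (K : Type) [Field K] [NumberField K] (R : IntermediateField K (AlgebraicClosure K) → ℝ) : Prop :=
  ∀ (F : IntermediateField K (AlgebraicClosure K)) [NumberField F]
    (L : List (MRep (GK K))), (∀ x ∈ L, Irr x) →
    (∀ g, (fixn K F g : ℂ) = (L.map fun x => x.2.character g).sum) →
    (∀ x, Irr x → mult L x = fixedDim x.2 F) → ∀ S : Finset (MRep (GK K)),
    (∀ p ∈ S, p ∈ L) → (∀ p ∈ S, ∀ q ∈ S, p ≠ q → ¬ Sim p q) →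
    (∀ x ∈ L, ∃ p ∈ S, Sim x p) →
    ∑ p ∈ S, (fixedDim p.2 F : ℝ) ^ 2 ≤ R F

/-- **The governing field**, with a general size in place of the degree. -/
theorem spectral_gen {R : IntermediateField K (AlgebraicClosure K) → ℝ} (hR : SqLe K R)
    [l.NeBot] (h : Mn l E) (hσ : ∀ v, IsFrob v (σ v)) (hs : 0 ≤ s)
    (hT : ∀ v, |T v| ≤ s)
    (hconv : ∀ U : Subgroup (GK K), IsOpen (U : Set (GK K)) →
      ∀ f : GK K → ℝ, (∀ g, ∀ u ∈ U, f (g * u) = f g) →
      ∃ m : ℝ, Hs l E (fun v => T v * f (σ v)) m) :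
    ∃ zF : IntermediateField K (AlgebraicClosure K) → ℝ,
      (∀ (F : IntermediateField K (AlgebraicClosure K)) [NumberField F],
        Hs l E (fun v => T v * fixn K F (σ v)) (zF F)) ∧
      (∀ (c : ℕ) (η : ℝ), 0 < η → ∃ M : IntermediateField K (AlgebraicClosure K),
        FiniteDimensional K M ∧ IsGalois K M ∧
        ∀ (F : IntermediateField K (AlgebraicClosure K)) [NumberField F],
          R F ≤ c → |zF F - zF (F ⊓ M)| < η) := by
  classical
  -- the mean values for number fields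
  have h1 : ∀ F : IntermediateField K (AlgebraicClosure K), ∃ z : ℝ, ∀ [NumberField F],
      Hs l E (fun v => T v * fixn K F (σ v)) z := by
    intro F
    by_cases hF : NumberField F
    · obtain ⟨m, hm⟩ := hconv (act K F).ker (ker_act_open K F) (fun g => fixn K F g)
        (fun g u hu => by rw [fixn_mul_ker K F g u ((MonoidHom.mem_ker).1 hu)])
      refine ⟨m, ?_⟩
      intro hF'
      exact hm
    · refine ⟨0, ?_⟩
      intro hF'
      exact absurd hF' hF
  choose zF hzF using h1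
  have h2 : ∀ x : MRep (GK K), ∃ z : ℝ, IsArtin x.2 → Hs l E (fun v => T v * RR x.2 0 σ v) z := by
    intro x
    by_cases hx : IsArtin x.2
    · obtain ⟨W, hWn, hW, hyW⟩ := exists_common (κ := Unit) (n := fun _ => x.1)
        (fun _ => x.2) fun _ => hx
      obtain ⟨m, hm⟩ := hconv W hW (fun g => (x.2.character g⁻¹).re) (fun g u hu => by
        have e : x.2 (g * u)⁻¹ = x.2 g⁻¹ := by
          rw [mul_inv_rev, map_mul, hyW () u⁻¹ (W.inv_mem hu), one_mul]
        change (x.2.character (g * u)⁻¹).re = (x.2.character g⁻¹).re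
        unfold Representation.character
        rw [e])
      refine ⟨m, fun _ => hm.congr (fun v => ?_) rfl⟩
      unfold RR zz
      rw [Complex.ofReal_zero, zero_mul, neg_zero, Complex.cpow_zero, mul_one]
    · exact ⟨0, fun h => absurd h hx⟩
  choose zA hzA using h2
  have hcong : ∀ x y, Irr x → Irr y → Sim x y → zA x = zA y := by
    intro x y hx hy hs
    refine (hzA x hx.1).unique (hzA y hy.1) fun v => ?_
    rw [hs.RR]
  -- Bessel
  have hB : ∀ S : Finset (MRep (GK K)), (∀ p ∈ S, Irr p) →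
      (∀ p ∈ S, ∀ q ∈ S, p ≠ q → ¬ Sim p q) → ∑ p ∈ S, (zA p) ^ 2 ≤ s ^ 2 := by
    intro S hS1 hS2
    obtain ⟨U, hUn, hU, hρ⟩ := exists_common (κ := S) (n := fun k => k.1.1)
      (fun k => k.1.2) fun k => (hS1 k.1 k.2).1
    have hfin : Finite (GK K ⧸ U) := Subgroup.quotient_finite_of_isOpen U hU
    have h3 := h.bessel U hU (κ := S) Finset.univ (n := fun k => k.1.1) (fun k => k.1.2) hρ σ hσ
      hs hT (fun k _ => (hS1 k.1 k.2).2) (fun k _ k' _ hkk => not_nonempty_iff.1
        (hS2 k.1 k.2 k'.1 k'.2 fun h => hkk (Subtype.ext h)))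
      (y := fun k => zA k.1) (fun k _ => hzA k.1 (hS1 k.1 k.2).1)
    rwa [Finset.sum_coe_sort S (fun p => (zA p) ^ 2)] at h3
  -- the formula for a list
  have hlist : ∀ (F : IntermediateField K (AlgebraicClosure K)) [NumberField F]
      (L : List (MRep (GK K))), (∀ x ∈ L, Irr x) →
      (∀ g, (fixn K F g : ℂ) = (L.map fun x => x.2.character g).sum) →
      zF F = (L.map zA).sum := by
    intro F _ L hL hfix
    have h3 : ∀ L' : List (MRep (GK K)), (∀ x ∈ L', Irr x) →
        Hs l E (fun v => T v * (L'.map fun x => RR x.2 0 σ v).sum) (L'.map zA).sum := by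
      intro L' hL'
      induction L' with
      | nil => exact h.hsZero.congr (fun v => by simp) (by simp)
      | cons x L' ih =>
        refine (h.hsAdd (hzA x (hL' x List.mem_cons_self).1)
          (ih fun y hy => hL' y (List.mem_cons_of_mem _ hy))).congr (fun v => ?_) ?_
        · rw [List.map_cons, List.sum_cons, mul_add]
        · rw [List.map_cons, List.sum_cons]
    refine (hzF F).unique (h3 L hL) fun v => ?_
    congr 1
    have e1 : ∀ L' : List (MRep (GK K)), (L'.map fun x => RR x.2 0 σ v).sum =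
        ((L'.map fun x : MRep (GK K) => x.2.character (σ v)⁻¹).sum).re := by
      intro L'
      induction L' with
      | nil => simp
      | cons x L' ih =>
        rw [List.map_cons, List.sum_cons, ih, List.map_cons, List.sum_cons, Complex.add_re]
        congr 1
        unfold RR zz
        rw [Complex.ofReal_zero, zero_mul, neg_zero, Complex.cpow_zero, mul_one]
    rw [e1, ← hfix, fixn_inv, Complex.natCast_re]
  -- the formula for an arbitrary covering family
  have hform : ∀ (F : IntermediateField K (AlgebraicClosure K)) [NumberField F]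
      (S : Finset (MRep (GK K))), (∀ p ∈ S, Irr p) → (∀ p ∈ S, ∀ q ∈ S, p ≠ q → ¬ Sim p q) →
      (∀ x, Irr x → (∀ p ∈ S, ¬ Sim x p) → fixedDim x.2 F = 0) →
      zF F = ∑ p ∈ S, zA p * fixedDim p.2 F := by
    intro F _ S hS1 hS2 hS3
    obtain ⟨U, L, S', hUn, hU, hF, hL, hfix, hm, -, -, -⟩ := exists_fam F
    have hL' : ∀ x ∈ L, Irr x := fun x hx => (hL x hx).1
    rw [hlist F L hL' hfix, list_fam (P := Irr) (fun x y hx hy hs => hcong x y hx hy hs) hS1 hS2 L
      hL' fun x hx => ?_]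
    · exact Finset.sum_congr rfl fun p hp => by rw [hm p (hS1 p hp)]
    · by_contra hcon
      push Not at hcon
      have h3 := hS3 x (hL' x hx) hcon
      rw [← hm x (hL' x hx)] at h3
      exact mult_ne_zero hx h3
  -- the families
  have hfam : ∀ (F : IntermediateField K (AlgebraicClosure K)) [NumberField F],
      ∃ S : Finset (MRep (GK K)), (∀ p ∈ S, Irr p) ∧
        (∀ p ∈ S, ∀ q ∈ S, p ≠ q → ¬ Sim p q) ∧
        (∀ x, Irr x → (∀ p ∈ S, ¬ Sim x p) → fixedDim x.2 F = 0) ∧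
        ∑ p ∈ S, (fixedDim p.2 F : ℝ) ^ 2 ≤ R F := by
    intro F _
    obtain ⟨U, L, S, hUn, hU, hF, hL, hfix, hm, hS1, hS2, hS3⟩ := exists_fam F
    refine ⟨S, fun p hp => (hL p (hS1 p hp)).1, hS2, fun x hx hxS => ?_,
      hR F L (fun x hx => (hL x hx).1) hfix hm S hS1 hS2 hS3⟩
    by_contra hne
    rw [← hm x hx] at hne
    obtain ⟨y, hy, hyx⟩ := mult_pos hne
    obtain ⟨p, hp, hyp⟩ := hS3 y hy
    exact hxS p hp (hyx.symm.trans hyp)
  refine ⟨zF, fun F _ => hzF F, fun c η hη => ?_⟩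
  -- one governing field
  set Q : Set ℝ := {q | ∃ S : Finset (MRep (GK K)), (∀ p ∈ S, Irr p) ∧
    (∀ p ∈ S, ∀ q ∈ S, p ≠ q → ¬ Sim p q) ∧ ∑ p ∈ S, (zA p) ^ 2 = q} with hQ
  have hQne : Q.Nonempty := ⟨0, ∅, fun p hp => absurd hp (Finset.notMem_empty _),
    fun p hp => absurd hp (Finset.notMem_empty _), Finset.sum_empty⟩
  have hQb : BddAbove Q := by
    refine ⟨s ^ 2, ?_⟩
    rintro q ⟨S, h3, h4, rfl⟩
    exact hB S h3 h4
  set θ : ℝ := η ^ 2 / (c + 1) with hθ
  have hθ0 : 0 < θ := by positivity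
  obtain ⟨q₀, ⟨S₀, h3, h4, rfl⟩, hq₀⟩ := exists_lt_of_lt_csSup hQne
    (show sSup Q - θ < sSup Q by linarith)
  obtain ⟨U, hUn, hU, hρ⟩ := exists_common (κ := S₀) (n := fun k => k.1.1)
    (fun k => k.1.2) fun k => (h3 k.1 k.2).1
  set M : IntermediateField K (AlgebraicClosure K) := IntermediateField.fixedField U with hM
  have hMU : M.fixingSubgroup = U :=
    InfiniteGalois.fixingSubgroup_fixedField ⟨U, U.isClosed_of_isOpen hU⟩
  have hMf : FiniteDimensional K M ∧ IsGalois K M := by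
    rw [← InfiniteGalois.isOpen_and_normal_iff_finite_and_isGalois, hMU]
    exact ⟨hU, hUn⟩
  refine ⟨M, hMf.1, hMf.2, fun F _ hdeg => ?_⟩
  obtain ⟨S, hS1, hS2, hS3, hS4⟩ := hfam F
  have hfd : FiniteDimensional K M := hMf.1
  have hle : F ⊓ M ≤ M := inf_le_right
  have hfd' : FiniteDimensional K (F ⊓ M : IntermediateField K (AlgebraicClosure K)) :=
    FiniteDimensional.of_injective (IntermediateField.inclusion hle).toLinearMap
      (IntermediateField.inclusion_injective hle)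
  have hnf : NumberField (F ⊓ M : IntermediateField K (AlgebraicClosure K)) :=
    NumberField.of_module_finite K _
  have hS5 : ∀ x, Irr x → (∀ p ∈ S, ¬ Sim x p) →
      fixedDim x.2 (F ⊓ M : IntermediateField K (AlgebraicClosure K)) = 0 := by
    intro x hx hxS
    have h5 := hS3 x hx hxS
    have h6 := fixedDim_mono x.2 (inf_le_left : F ⊓ M ≤ F)
    omega
  set B : Finset (MRep (GK K)) := S.filter fun p => ¬ ∀ u ∈ U, p.2 u = 1 with hBd
  have hdiff : zF F - zF (F ⊓ M) = ∑ p ∈ B, zA p * fixedDim p.2 F := by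
    rw [hform F S hS1 hS2 hS3, hform (F ⊓ M) S hS1 hS2 hS5, ← Finset.sum_sub_distrib, hBd,
      Finset.sum_filter]
    refine Finset.sum_congr rfl fun p hp => ?_
    by_cases hpU : ∀ u ∈ U, p.2 u = 1
    · rw [if_neg (not_not.2 hpU), fixed_inf hU hMU F p hpU, sub_self]
    · rw [if_pos hpU]
      have h5 := fixed_zero hMU p (hS1 p hp).2 hpU
      have h6 := fixedDim_mono p.2 (inf_le_right : F ⊓ M ≤ M)
      have h7 : fixedDim p.2 (F ⊓ M : IntermediateField K (AlgebraicClosure K)) = 0 := by omega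
      rw [h7, Nat.cast_zero, mul_zero, sub_zero]
  have hBS : ∀ p ∈ B, p ∈ S := fun p hp => (Finset.mem_filter.1 hp).1
  have hS₀U : ∀ p ∈ S₀, ∀ u ∈ U, p.2 u = 1 := fun p hp u hu => hρ ⟨p, hp⟩ u hu
  have hcross : ∀ p ∈ S₀, ∀ q ∈ B, ¬ Sim p q := fun p hp q hq hs =>
    (Finset.mem_filter.1 hq).2 fun u hu => Sim_one hs (hS₀U p hp u hu)
  have hdisj : Disjoint S₀ B := by
    rw [Finset.disjoint_left]
    intro p hp hpB
    exact hcross p hp p hpB (Sim.refl p)
  have hsum : ∑ p ∈ S₀, (zA p) ^ 2 + ∑ p ∈ B, (zA p) ^ 2 ≤ sSup Q := by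
    rw [← Finset.sum_union hdisj]
    refine le_csSup hQb ⟨S₀ ∪ B, fun p hp => ?_, fun p hp q hq hpq => ?_, rfl⟩
    · rcases Finset.mem_union.1 hp with hp | hp
      · exact h3 p hp
      · exact hS1 p (hBS p hp)
    · rcases Finset.mem_union.1 hp with hp' | hp'
      · rcases Finset.mem_union.1 hq with hq' | hq'
        · exact h4 p hp' q hq' hpq
        · exact hcross p hp' q hq'
      · rcases Finset.mem_union.1 hq with hq' | hq'
        · exact fun hs => hcross q hq' p hp' hs.symm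
        · exact hS2 p (hBS p hp') q (hBS q hq') hpq
  have hBθ : ∑ p ∈ B, (zA p) ^ 2 ≤ θ := by linarith
  have hm : ∑ p ∈ B, (fixedDim p.2 F : ℝ) ^ 2 ≤ c := by
    have h5 : ∑ p ∈ B, (fixedDim p.2 F : ℝ) ^ 2 ≤ ∑ p ∈ S, (fixedDim p.2 F : ℝ) ^ 2 :=
      Finset.sum_le_sum_of_subset_of_nonneg (Finset.filter_subset _ _) fun _ _ _ => sq_nonneg _
    exact (h5.trans hS4).trans hdeg
  rw [hdiff]
  refine abs_lt_of_sq_lt_sq ?_ hη.le
  have h5 := Finset.sum_mul_sq_le_sq_mul_sq B zA fun p => (fixedDim p.2 F : ℝ)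
  have h6 : (∑ p ∈ B, (zA p) ^ 2) * ∑ p ∈ B, (fixedDim p.2 F : ℝ) ^ 2 ≤ θ * c :=
    mul_le_mul hBθ hm (Finset.sum_nonneg fun _ _ => sq_nonneg _) hθ0.le
  have h7 : θ * c < η ^ 2 := by
    rw [hθ, div_mul_eq_mul_div, div_lt_iff₀ (by positivity)]
    have : 0 < η ^ 2 := by positivity
    nlinarith
  linarith

end

end Pool.Agent.T2H28.BF
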